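import Mathlib

namespace Pool.Agent.Lib.MP_c27d8d_an

/-- Abstract properties of the adjoint Cantorval; `a` is the length of the hull. -/
structure Sys (q a : ℝ) (A : Set ℝ) : Prop where
  q0 : 0 < q
  q2 : q < 1 / 2
  ha : a * (1 - q) = q
  sub : ∀ x ∈ A, 0 ≤ x ∧ x ≤ a
  zero : (0 : ℝ) ∈ A
  sym : ∀ x ∈ A, a - x ∈ A
  closed : IsClosed A
  mid : ∀ x, q * a ≤ x → x ≤ q → x ∈ A
  down : ∀ x ∈ A, (q * a ≤ x ∧ x ≤ q) ∨ x / q ^ 2 ∈ A ∨ (x - q ^ 2) / q ^ 2 ∈ A ∨
    (x - q) / q ^ 2 ∈ A ∨ (x - q - q ^ 2) / q ^ 2 ∈ A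
  up1 : ∀ x ∈ A, q ^ 2 * x ∈ A
  up2 : ∀ x ∈ A, q ^ 2 + q ^ 2 * x ∈ A
  up3 : ∀ x ∈ A, q + q ^ 2 * x ∈ A
  up4 : ∀ x ∈ A, q + q ^ 2 + q ^ 2 * x ∈ A

namespace Sys

variable {q a : ℝ} {A : Set ℝ} (h : Sys q a A)
include h

theorem a0 : 0 < a := by
  have h1 := h.q0
  have h2 := h.q2
  have h3 := h.ha
  by_contra hcon
  push Not at hcon
  nlinarith

theorem a1 : a < 1 := by
  have h1 := h.q0
  have h2 := h.q2
  have h3 := h.ha
  by_contra hcon
  push Not at hcon
  nlinarith

theorem qa : q * a = q ^ 2 + q ^ 2 * a := by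
  have h3 := h.ha
  have h4 : a = q + q * a := by linarith
  calc q * a = q * (q + q * a) := by rw [← h4]
    _ = _ := by ring

theorem aeq : a = q + q * a := by
  have h3 := h.ha
  linarith

theorem b0 : 0 < q ^ 2 := by
  have := h.q0
  positivity

/-- `q a < q`, so the middle interval is nondegenerate. -/
theorem qalt : q * a < q := by
  have h1 := h.q0
  have := h.a1
  nlinarith

theorem amem : a ∈ A := by
  have := h.sym 0 h.zero
  simpa using this

theorem symiff (x : ℝ) : a - x ∈ A ↔ x ∈ A := by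
  constructor
  · intro hx
    have := h.sym _ hx
    simpa using this
  · exact h.sym x

/-- Scaling near zero. -/
theorem small (x : ℝ) (hx : x < q ^ 2) : x ∈ A ↔ x / q ^ 2 ∈ A := by
  have hb := h.b0
  have h0 := h.q0
  have h2 := h.q2
  have ha0 := h.a0
  constructor
  · intro hxA
    rcases h.down x hxA with h1 | h1 | h1 | h1 | h1
    · exfalso
      have := h.qa
      nlinarith [h1.1, mul_pos hb ha0]
    · exact h1
    · exfalso
      have := (h.sub _ h1).1
      rw [le_div_iff₀ hb] at this
      linarith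
    · exfalso
      have := (h.sub _ h1).1
      rw [le_div_iff₀ hb] at this
      nlinarith
    · exfalso
      have := (h.sub _ h1).1
      rw [le_div_iff₀ hb] at this
      nlinarith
  · intro hxA
    have := h.up1 _ hxA
    rwa [mul_div_cancel₀ _ hb.ne'] at this

theorem small' (x : ℝ) (hx : x < 1) : q ^ 2 * x ∈ A ↔ x ∈ A := by
  have hb := h.b0
  rw [h.small (q ^ 2 * x) (by nlinarith), mul_div_cancel_left₀ _ hb.ne']

theorem gap1 (x : ℝ) (h1 : q ^ 2 * a < x) (h2 : x < q ^ 2) : x ∉ A := by
  have hb := h.b0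
  rw [h.small x h2]
  intro h3
  have := (h.sub _ h3).2
  rw [div_le_iff₀ hb] at this
  linarith

theorem le_of_mem_small (x : ℝ) (hx : x ∈ A) (h2 : x < q ^ 2) : x ≤ q ^ 2 * a := by
  by_contra hcon
  push Not at hcon
  exact h.gap1 x hcon h2 hx

/-- Second piece. -/
theorem second (x : ℝ) (h1 : q ^ 2 ≤ x) (h2 : x < q * a) : x ∈ A ↔ (x - q ^ 2) / q ^ 2 ∈ A := by
  have hb := h.b0
  have h0 := h.q0
  have ha0 := h.a0
  have ha1 := h.a1
  have hqalt := h.qalt
  constructor
  · intro hxA
    rcases h.down x hxA with h3 | h3 | h3 | h3 | h3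
    · linarith [h3.1]
    · exfalso
      have := (h.sub _ h3).2
      rw [div_le_iff₀ hb] at this
      nlinarith
    · exact h3
    · exfalso
      have := (h.sub _ h3).1
      rw [le_div_iff₀ hb] at this
      linarith
    · exfalso
      have := (h.sub _ h3).1
      rw [le_div_iff₀ hb] at this
      linarith
  · intro hxA
    have := h.up2 _ hxA
    rw [mul_div_cancel₀ _ hb.ne'] at this
    simpa using this

/-- Right part is a translate of the left part. -/
theorem right (w : ℝ) (h1 : 0 ≤ w) (h2 : w ≤ q * a) : q + w ∈ A ↔ w ∈ A := by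
  have hb := h.b0
  have h0 := h.q0
  have ha0 := h.a0
  have ha1 := h.a1
  have hqalt := h.qalt
  have hqa := h.qa
  have hq2 := h.q2
  constructor
  · intro hxA
    rcases eq_or_lt_of_le h1 with h1' | h1'
    · rw [← h1']; exact h.zero
    rcases h.down _ hxA with h3 | h3 | h3 | h3 | h3
    · linarith [h3.2]
    · exfalso
      have := (h.sub _ h3).2
      rw [div_le_iff₀ hb] at this
      nlinarith
    · exfalso
      have := (h.sub _ h3).2
      rw [div_le_iff₀ hb] at this
      nlinarith
    · have h4 := h.up1 _ h3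
      rw [mul_div_cancel₀ _ hb.ne'] at h4
      simpa using h4
    · have h4 := h.up2 _ h3
      rw [mul_div_cancel₀ _ hb.ne'] at h4
      have e : q ^ 2 + (q + w - q - q ^ 2) = w := by ring
      rwa [e] at h4
  · intro hwA
    rcases lt_or_ge w (q ^ 2) with h3 | h3
    · rw [h.small w h3] at hwA
      have := h.up3 _ hwA
      rwa [mul_div_cancel₀ _ hb.ne'] at this
    · rcases eq_or_lt_of_le h2 with h2' | h2'
      · have h4 : q + w = a := by rw [h2']; exact h.aeq.symm
        rw [h4]; exact h.amem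
      · rw [h.second w h3 h2'] at hwA
        have := h.up4 _ hwA
        rw [mul_div_cancel₀ _ hb.ne'] at this
        have e : q + q ^ 2 + (w - q ^ 2) = q + w := by ring
        rwa [e] at this

/-- Symmetry of the left part. -/
theorem symleft (y : ℝ) (h1 : 0 ≤ y) (h2 : y ≤ q * a) : q * a - y ∈ A ↔ y ∈ A := by
  rw [← h.right (q * a - y) (by linarith) (by linarith)]
  have e : q + (q * a - y) = a - y := by linarith [h.aeq]
  rw [e, h.symiff]

/-- Complementary points accumulate at zero. -/
theorem acc (δ : ℝ) (hδ : 0 < δ) : ∃ y, 0 < y ∧ y < δ ∧ y < q ^ 2 * a ∧ y ∉ A := by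
  have hb := h.b0
  have ha0 := h.a0
  have ha1 := h.a1
  have hb1 : q ^ 2 < 1 := by nlinarith [h.q0, h.q2]
  set m := q ^ 2 * (1 + a) / 2 with hm
  have hm1 : q ^ 2 * a < m := by rw [hm]; nlinarith
  have hm2 : m < q ^ 2 := by rw [hm]; nlinarith
  have hmA : m ∉ A := h.gap1 m hm1 hm2
  have hm0 : 0 < m := by nlinarith [mul_pos hb ha0]
  have key : ∀ k : ℕ, (q ^ 2) ^ k * m ∉ A := by
    intro k
    induction k with
    | zero => simpa using hmA
    | succ k ih =>
      have hlt : (q ^ 2) ^ k * m < 1 := by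
        have : (q ^ 2) ^ k ≤ 1 := pow_le_one₀ hb.le hb1.le
        nlinarith
      have e : (q ^ 2) ^ (k + 1) * m = q ^ 2 * ((q ^ 2) ^ k * m) := by ring
      rw [e, h.small' _ hlt]
      exact ih
  have hlim : Filter.Tendsto (fun k : ℕ => (q ^ 2) ^ k * m) Filter.atTop (nhds (0 * m)) :=
    (tendsto_pow_atTop_nhds_zero_of_lt_one hb.le hb1).mul_const m
  rw [zero_mul] at hlim
  have hmin : 0 < min δ (q ^ 2 * a) := lt_min hδ (by positivity)
  obtain ⟨k, hk⟩ := (hlim.eventually_lt_const hmin).exists
  exact ⟨(q ^ 2) ^ k * m, by positivity, lt_of_lt_of_le hk (min_le_left _ _),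
    lt_of_lt_of_le hk (min_le_right _ _), key k⟩

/-- Intervals inside `A`. -/
theorem interval (l r : ℝ) (hlr : l ≤ r) (hI : ∀ x, l ≤ x → x ≤ r → x ∈ A) :
    (q * a ≤ l ∧ r ≤ q) ∨ ∃ t : ℝ, (t = 0 ∨ t = q ^ 2 ∨ t = q ∨ t = q + q ^ 2) ∧
      ∀ x, (l - t) / q ^ 2 ≤ x → x ≤ (r - t) / q ^ 2 → x ∈ A := by
  have hb := h.b0
  have h0 := h.q0
  have ha0 := h.a0
  have ha1 := h.a1
  have hqalt := h.qalt
  have hqa := h.qa
  have hlA := hI l le_rfl hlr
  have hrA := hI r hlr le_rfl
  have hba : q ^ 2 * a < q ^ 2 := by nlinarith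
  rcases lt_or_ge l (q ^ 2) with h1 | h1
  · -- first piece
    have hl : l ≤ q ^ 2 * a := h.le_of_mem_small l hlA h1
    have hr : r ≤ q ^ 2 * a := by
      by_contra hcon
      push Not at hcon
      have h3 : (q ^ 2 * a + min r (q ^ 2)) / 2 ∉ A := by
        have : q ^ 2 * a < min r (q ^ 2) := lt_min hcon hba
        apply h.gap1
        · linarith
        · have := min_le_right r (q ^ 2)
          linarith
      apply h3
      have : q ^ 2 * a < min r (q ^ 2) := lt_min hcon hba
      have h4 := min_le_left r (q ^ 2)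
      exact hI _ (by linarith) (by linarith)
    right
    refine ⟨0, Or.inl rfl, ?_⟩
    intro x hx1 hx2
    rw [sub_zero] at hx1 hx2
    rw [div_le_iff₀ hb] at hx1
    rw [le_div_iff₀ hb] at hx2
    have h5 := hI (q ^ 2 * x) (by linarith) (by linarith)
    have hx3 : x < 1 := by nlinarith
    rwa [h.small' x hx3] at h5
  · rcases lt_or_ge l (q * a) with h2 | h2
    · -- second piece
      have hr : r < q * a := by
        by_contra hcon
        push Not at hcon
        obtain ⟨y, hy0, hy1, hy2, hy3⟩ := h.acc (q * a - l) (by linarith)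
        have h4 : y ≤ q * a := by nlinarith
        apply hy3
        rw [← h.symleft y hy0.le h4]
        exact hI _ (by linarith) (by linarith)
      right
      refine ⟨q ^ 2, Or.inr (Or.inl rfl), ?_⟩
      intro x hx1 hx2
      rw [div_le_iff₀ hb] at hx1
      rw [le_div_iff₀ hb] at hx2
      have h5 := hI (q ^ 2 + q ^ 2 * x) (by linarith) (by linarith)
      rw [h.second _ (by nlinarith) (by linarith)] at h5
      have e : (q ^ 2 + q ^ 2 * x - q ^ 2) / q ^ 2 = x := by field_simp; ring
      rwa [e] at h5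
    · rcases le_or_gt l q with h3 | h3
      · -- middle
        left
        refine ⟨h2, ?_⟩
        by_contra hcon
        push Not at hcon
        obtain ⟨y, hy0, hy1, hy2, hy3⟩ := h.acc (r - q) (by linarith)
        apply hy3
        rw [← h.right y hy0.le (by nlinarith)]
        exact hI _ (by linarith) (by linarith)
      · -- right part
        have hra : r ≤ a := (h.sub r hrA).2
        have haeq := h.aeq
        rcases lt_or_ge l (q + q ^ 2) with h4 | h4
        · have hl : l ≤ q + q ^ 2 * a := by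
            have h5 : l - q ∈ A := by
              rw [← h.right (l - q) (by linarith) (by linarith)]
              simpa using hlA
            have := h.le_of_mem_small _ h5 (by linarith)
            linarith
          have hr : r ≤ q + q ^ 2 * a := by
            by_contra hcon
            push Not at hcon
            have h6 : q ^ 2 * a < min (r - q) (q ^ 2) := lt_min (by linarith) hba
            have h7 := min_le_left (r - q) (q ^ 2)
            have h8 := min_le_right (r - q) (q ^ 2)
            have h9 : (q ^ 2 * a + min (r - q) (q ^ 2)) / 2 ∉ A := by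
              apply h.gap1 <;> linarith
            apply h9
            have hpos : 0 ≤ (q ^ 2 * a + min (r - q) (q ^ 2)) / 2 := by nlinarith [mul_pos hb ha0]
            rw [← h.right _ hpos (by linarith)]
            exact hI _ (by linarith) (by linarith)
          right
          refine ⟨q, Or.inr (Or.inr (Or.inl rfl)), ?_⟩
          intro x hx1 hx2
          rw [div_le_iff₀ hb] at hx1
          rw [le_div_iff₀ hb] at hx2
          have h5 := hI (q + q ^ 2 * x) (by linarith) (by linarith)
          have hx3 : x < 1 := by nlinarith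
          rw [h.right _ (by linarith) (by linarith), h.small' x hx3] at h5
          exact h5
        · right
          refine ⟨q + q ^ 2, Or.inr (Or.inr (Or.inr rfl)), ?_⟩
          intro x hx1 hx2
          rw [div_le_iff₀ hb] at hx1
          rw [le_div_iff₀ hb] at hx2
          have h5 := hI (q + (q ^ 2 + q ^ 2 * x)) (by linarith) (by linarith)
          rw [h.right _ (by linarith) (by linarith)] at h5
          rcases eq_or_lt_of_le (show q ^ 2 + q ^ 2 * x ≤ q * a by linarith) with h6 | h6
          · have h7 : q ^ 2 * x = q ^ 2 * a := by linarith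
            have h8 : x = a := mul_left_cancel₀ hb.ne' h7
            rw [h8]; exact h.amem
          · rw [h.second _ (by linarith) h6] at h5
            have e : (q ^ 2 + q ^ 2 * x - q ^ 2) / q ^ 2 = x := by field_simp; ring
            rwa [e] at h5

/-- Intervals inside `A` have length at most that of the middle interval. -/
theorem len_le (l r : ℝ) (hlr : l ≤ r) (hI : ∀ x, l ≤ x → x ≤ r → x ∈ A) : r - l ≤ q - q * a := by
  by_contra hcon
  push Not at hcon
  have hb := h.b0
  have hqalt := h.qalt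
  have hb1 : q ^ 2 < 1 := by nlinarith [h.q0, h.q2]
  have key : ∀ n : ℕ, ∀ l r : ℝ, l ≤ r → (∀ x, l ≤ x → x ≤ r → x ∈ A) → q - q * a < r - l →
      r - l ≤ (q ^ 2) ^ n * a := by
    intro n
    induction n with
    | zero =>
      intro l r hlr hI _
      have h1 := (h.sub l (hI l le_rfl hlr)).1
      have h2 := (h.sub r (hI r hlr le_rfl)).2
      simp; linarith
    | succ n ih =>
      intro l r hlr hI hlt
      rcases h.interval l r hlr hI with h1 | ⟨t, -, h1⟩
      · linarith [h1.1, h1.2]
      · have h2 : (l - t) / q ^ 2 ≤ (r - t) / q ^ 2 := by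
          apply div_le_div_of_nonneg_right _ hb.le; linarith
        have e : (r - t) / q ^ 2 - (l - t) / q ^ 2 = (r - l) / q ^ 2 := by
          rw [← sub_div]; congr 1; ring
        have h3 : r - l ≤ (r - l) / q ^ 2 := by
          rw [le_div_iff₀ hb]; nlinarith
        have h4 := ih _ _ h2 h1 (by rw [e]; linarith)
        rw [e, div_le_iff₀ hb] at h4
        calc r - l ≤ (q ^ 2) ^ n * a * q ^ 2 := h4
          _ = (q ^ 2) ^ (n + 1) * a := by ring
  have hlim : Filter.Tendsto (fun k : ℕ => (q ^ 2) ^ k * a) Filter.atTop (nhds (0 * a)) :=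
    (tendsto_pow_atTop_nhds_zero_of_lt_one hb.le hb1).mul_const a
  rw [zero_mul] at hlim
  obtain ⟨n, hn⟩ := (hlim.eventually_lt_const (show 0 < r - l by linarith)).exists
  have := key n l r hlr hI hcon
  linarith

/-- Long intervals inside `A` lie in the middle interval. -/
theorem long (l r : ℝ) (hlr : l ≤ r) (hI : ∀ x, l ≤ x → x ≤ r → x ∈ A)
    (hlen : q ^ 2 * (q - q * a) < r - l) : q * a ≤ l ∧ r ≤ q := by
  have hb := h.b0
  rcases h.interval l r hlr hI with h1 | ⟨t, -, h1⟩
  · exact h1
  · exfalso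
    have h2 : (l - t) / q ^ 2 ≤ (r - t) / q ^ 2 := by
      apply div_le_div_of_nonneg_right _ hb.le; linarith
    have e : (r - t) / q ^ 2 - (l - t) / q ^ 2 = (r - l) / q ^ 2 := by
      rw [← sub_div]; congr 1; ring
    have h3 := h.len_le _ _ h2 h1
    rw [e, div_le_iff₀ hb] at h3
    linarith

/-- Intervals of length exactly `q² |J|`. -/
theorem exact_len (l r : ℝ) (hI : ∀ x, l ≤ x → x ≤ r → x ∈ A)
    (hlen : r - l = q ^ 2 * (q - q * a)) : (q * a ≤ l ∧ r ≤ q) ∨
      ∃ t : ℝ, (t = 0 ∨ t = q ^ 2 ∨ t = q ∨ t = q + q ^ 2) ∧ l = t + q ^ 2 * (q * a) := by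
  have hb := h.b0
  have hqalt := h.qalt
  have hlr : l ≤ r := by
    have : 0 < q ^ 2 * (q - q * a) := mul_pos hb (by linarith)
    linarith
  rcases h.interval l r hlr hI with h1 | ⟨t, ht, h1⟩
  · exact Or.inl h1
  · right
    refine ⟨t, ht, ?_⟩
    have h2 : (l - t) / q ^ 2 ≤ (r - t) / q ^ 2 := by
      apply div_le_div_of_nonneg_right _ hb.le; linarith
    have e : (r - t) / q ^ 2 - (l - t) / q ^ 2 = (r - l) / q ^ 2 := by
      rw [← sub_div]; congr 1; ring
    have e2 : (r - l) / q ^ 2 = q - q * a := by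
      rw [hlen, mul_div_cancel_left₀ _ hb.ne']
    have hb1 : q ^ 2 < 1 := by nlinarith [h.q0, h.q2]
    have h3 := h.long _ _ h2 h1 (by rw [e, e2]; nlinarith)
    have h4 : (l - t) / q ^ 2 = q * a := by linarith [h3.1, h3.2]
    rw [div_eq_iff hb.ne'] at h4
    linarith

end Sys

end Pool.Agent.Lib.MP_c27d8d_an
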