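import Mathlib

namespace Pool.Agent.Lib.MP_c27d8d_an

/-- `r q m = ∑_{k > m} q ^ k = q ^ (m + 1) / (1 - q)`. -/
noncomputable def r (q : ℝ) (m : ℕ) : ℝ := q ^ (m + 1) / (1 - q)

/-- `s q m ε = ∑_{1 ≤ i ≤ m} ε_i q ^ i`, where the digit `ε_i` is one iff `ε (i - 1)` is true. -/
noncomputable def s (q : ℝ) (m : ℕ) (ε : ℕ → Bool) : ℝ :=
  ∑ i ∈ Finset.range m, if ε i then q ^ (i + 1) else 0

/-- The achievement set `E(q ^ n)` of the series `∑_{n ≥ 1} q ^ n`. -/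
def E (q : ℝ) : Set ℝ := {x | ∃ ε : ℕ → Bool, x = ∑' i : ℕ, if ε i then q ^ (i + 1) else 0}

/-- The union of the gaps `(s(ε) + r_m, s(ε) + q ^ m)`, `ε` of length `m - 1`, removed at
step `m ≥ 1`. -/
def G (q : ℝ) (m : ℕ) : Set ℝ :=
  {x | ∃ ε : ℕ → Bool, s q (m - 1) ε + r q m < x ∧ x < s q (m - 1) ε + q ^ m}

/-- The adjoint Cantorval of `E q`: the gaps of odd steps are put back. -/
def adjoint (q : ℝ) : Set ℝ := E q ∪ {x | ∃ m : ℕ, Odd m ∧ x ∈ G q m}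

/-- The center of distances of a set of reals. -/
def centerOfDistances (A : Set ℝ) : Set ℝ := {α | 0 ≤ α ∧ ∀ x ∈ A, ∃ y ∈ A, |x - y| = α}

/-- `D` is a nonempty compact set with
`D = q² D ∪ (2q²/(1-q) - q² D) ∪ [2q²/(1-q), q] ∪ (q + q² D)`. -/
def IsAuxSet (q : ℝ) (D : Set ℝ) : Prop :=
  D.Nonempty ∧ IsCompact D ∧
    D = (fun x => q ^ 2 * x) '' D ∪ (fun x => 2 * q ^ 2 / (1 - q) - q ^ 2 * x) '' D ∪
      Set.Icc (2 * q ^ 2 / (1 - q)) q ∪ (fun x => q + q ^ 2 * x) '' D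

end Pool.Agent.Lib.MP_c27d8d_an
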