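import Pool.Agent.Lib.MP_c27d8d_an.Abs
import Pool.Agent.Lib.MP_c27d8d_an.Defs

namespace Pool.Agent.Lib.MP_c27d8d_an

theorem mem_cod (A : Set ℝ) (α : ℝ) :
    α ∈ centerOfDistances A ↔ 0 ≤ α ∧ ∀ x ∈ A, x + α ∈ A ∨ x - α ∈ A := by
  constructor
  · rintro ⟨h0, h1⟩
    refine ⟨h0, fun x hx => ?_⟩
    obtain ⟨y, hy, hxy⟩ := h1 x hx
    rcases abs_cases (x - y) with h | h
    · right
      have : x - α = y := by linarith [h.1]
      rwa [this]
    · left
      have : x + α = y := by linarith [h.1]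
      rwa [this]
  · rintro ⟨h0, h1⟩
    refine ⟨h0, fun x hx => ?_⟩
    rcases h1 x hx with h | h
    · refine ⟨_, h, ?_⟩
      rw [show x - (x + α) = -α by ring, abs_neg, abs_of_nonneg h0]
    · refine ⟨_, h, ?_⟩
      rw [show x - (x - α) = α by ring, abs_of_nonneg h0]

/-- Weak form of the condition. -/
def Wk (A : Set ℝ) (α : ℝ) : Prop := ∀ x ∈ A, x + α < 1 → x + α ∈ A ∨ x - α ∈ A

/-- The auxiliary set. -/
def D1 (a : ℝ) (A : Set ℝ) : Set ℝ :=
  {v | 0 ≤ v ∧ v ≤ a ∧ ∀ s, 0 ≤ s → s ≤ v → s ∈ A ∨ v - s ∈ A}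

namespace Sys

variable {q a : ℝ} {A : Set ℝ} (h : Sys q a A)
include h

theorem smallk (k : ℕ) (y : ℝ) (hy : y < 1) : (q ^ 2) ^ k * y ∈ A ↔ y ∈ A := by
  have hb := h.b0
  have hb1 : q ^ 2 < 1 := by nlinarith [h.q0, h.q2]
  induction k with
  | zero => simp
  | succ k ih =>
    have hlt : (q ^ 2) ^ k * y < 1 := by
      have h1 : (q ^ 2) ^ k ≤ 1 := pow_le_one₀ hb.le hb1.le
      have h2 : 0 < (q ^ 2) ^ k := by positivity
      rcases le_or_gt y 0 with h3 | h3
      · nlinarith
      · nlinarith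
    have e : (q ^ 2) ^ (k + 1) * y = q ^ 2 * ((q ^ 2) ^ k * y) := by ring
    rw [e, h.small' _ hlt]
    exact ih

theorem le_half {α : ℝ} (hα : α ∈ centerOfDistances A) : α ≤ a / 2 := by
  rw [mem_cod] at hα
  have ha := h.a0
  have hqalt := h.qalt
  have haeq := h.aeq
  have hc : a / 2 ∈ A := h.mid _ (by linarith) (by linarith)
  rcases hα.2 _ hc with h1 | h1
  · linarith [(h.sub _ h1).2]
  · linarith [(h.sub _ h1).1]

theorem exists_scale {α : ℝ} (hα : α ∈ centerOfDistances A) (h0 : 0 < α) :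
    ∃ (k : ℕ) (β : ℝ), α = (q ^ 2) ^ k * β ∧ q ^ 2 * q ≤ β ∧ β < q ∧ Wk A β := by
  classical
  have hb := h.b0
  have hb1 : q ^ 2 < 1 := by nlinarith [h.q0, h.q2]
  have hq0 := h.q0
  have hlim : Filter.Tendsto (fun k : ℕ => (q ^ 2) ^ (k + 1) * q) Filter.atTop (nhds (0 * q)) :=
    ((tendsto_pow_atTop_nhds_zero_of_lt_one hb.le hb1).comp
      (Filter.tendsto_add_atTop_nat 1)).mul_const q
  rw [zero_mul] at hlim
  have hex : ∃ k : ℕ, (q ^ 2) ^ (k + 1) * q ≤ α := by
    obtain ⟨k, hk⟩ := (hlim.eventually_lt_const h0).exists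
    exact ⟨k, hk.le⟩
  set k := Nat.find hex with hk
  have hk1 : (q ^ 2) ^ (k + 1) * q ≤ α := Nat.find_spec hex
  have hk2 : α < (q ^ 2) ^ k * q := by
    rcases Nat.eq_zero_or_pos k with h1 | h1
    · rw [h1, pow_zero, one_mul]
      have := h.le_half hα
      have := h.aeq
      have := h.qalt
      linarith
    · have := Nat.find_min hex (show k - 1 < Nat.find hex by omega)
      push Not at this
      have e : k - 1 + 1 = k := by omega
      rwa [e] at this
  have hbk : 0 < (q ^ 2) ^ k := by positivity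
  have hαe : α = (q ^ 2) ^ k * (α / (q ^ 2) ^ k) := by field_simp
  refine ⟨k, α / (q ^ 2) ^ k, hαe, ?_, ?_, ?_⟩
  · rw [le_div_iff₀ hbk]
    calc q ^ 2 * q * (q ^ 2) ^ k = (q ^ 2) ^ (k + 1) * q := by ring
      _ ≤ α := hk1
  · rw [div_lt_iff₀ hbk]
    linarith
  · intro x hx hlt
    rw [mem_cod] at hα
    have hx1 : x < 1 := lt_of_le_of_lt (h.sub x hx).2 h.a1
    have h1 : (q ^ 2) ^ k * x ∈ A := (h.smallk k x hx1).2 hx
    have hpos : 0 < α / (q ^ 2) ^ k := by positivity
    rcases hα.2 _ h1 with h2 | h2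
    · left
      rw [← h.smallk k _ hlt]
      have e : (q ^ 2) ^ k * (x + α / (q ^ 2) ^ k) = (q ^ 2) ^ k * x + α := by
        rw [mul_add, ← hαe]
      rwa [e]
    · right
      rw [← h.smallk k _ (by linarith)]
      have e : (q ^ 2) ^ k * (x - α / (q ^ 2) ^ k) = (q ^ 2) ^ k * x - α := by
        rw [mul_sub, ← hαe]
      rwa [e]

/-- Closure of half-open intervals. -/
theorem close_right (l r : ℝ) (hlr : l < r) (hI : ∀ x, l ≤ x → x < r → x ∈ A) :
    ∀ x, l ≤ x → x ≤ r → x ∈ A := by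
  have h1 : Set.Ico l r ⊆ A := fun x hx => hI x hx.1 hx.2
  have h2 : closure (Set.Ico l r) ⊆ A := closure_minimal h1 h.closed
  rw [closure_Ico hlr.ne] at h2
  exact fun x hx1 hx2 => h2 ⟨hx1, hx2⟩

theorem close_open (l r : ℝ) (hlr : l < r) (hI : ∀ x, l < x → x < r → x ∈ A) :
    ∀ x, l ≤ x → x ≤ r → x ∈ A := by
  have h1 : Set.Ioo l r ⊆ A := fun x hx => hI x hx.1 hx.2
  have h2 : closure (Set.Ioo l r) ⊆ A := closure_minimal h1 h.closed
  rw [closure_Ioo hlr.ne] at h2
  exact fun x hx1 hx2 => h2 ⟨hx1, hx2⟩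

/-- First restriction. -/
theorem step1 {β : ℝ} (hW : Wk A β) (h1 : q ^ 2 * q ≤ β) (h2 : β < q) :
    β = q ^ 2 ∨ (q ^ 2 + q ^ 2 * q ≤ β ∧ β ≤ q - q ^ 2 * q) := by
  have hb := h.b0
  have hq0 := h.q0
  have hq2 := h.q2
  have ha0 := h.a0
  have ha1 := h.a1
  have hqa := h.qa
  have hqalt := h.qalt
  have hI : ∀ x, q ^ 2 * (q * a) + β ≤ x → x < q ^ 2 * q + β → x ∈ A := by
    intro x hx1 hx2
    have hxA : x - β ∈ A := by
      have : (x - β) / q ^ 2 ∈ A := by
        apply h.mid
        · rw [le_div_iff₀ hb]; linarith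
        · rw [div_le_iff₀ hb]; linarith
      have := h.up1 _ this
      rwa [mul_div_cancel₀ _ hb.ne'] at this
    rcases hW _ hxA (by nlinarith) with h3 | h3
    · simpa using h3
    · exfalso
      have := (h.sub _ h3).1
      linarith
  have hlt : q ^ 2 * (q * a) + β < q ^ 2 * q + β := by nlinarith
  have hI' := h.close_right _ _ hlt hI
  rcases h.exact_len _ _ hI' (by ring) with h3 | ⟨t, ht, h3⟩
  · right
    constructor
    · nlinarith [h3.1]
    · linarith [h3.2]
  · left
    have hβt : β = t := by linarith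
    rcases ht with ht | ht | ht | ht
    · exfalso; nlinarith
    · linarith
    · exfalso; linarith
    · exfalso; linarith

/-- Second restriction. -/
theorem step2 {β : ℝ} (hW : Wk A β) (h1 : q ^ 2 * q ≤ β) (h2 : β < q) :
    q ^ 2 ≤ β ∧ β ≤ q - q ^ 2 := by
  have hb := h.b0
  have hq0 := h.q0
  have hq2 := h.q2
  have ha0 := h.a0
  have ha1 := h.a1
  have hqa := h.qa
  have hqalt := h.qalt
  rcases h.step1 hW h1 h2 with h3 | ⟨h3, h4⟩
  · constructor
    · linarith
    · rw [h3]; nlinarith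
  · refine ⟨by nlinarith, ?_⟩
    have hI : ∀ x, q ^ 2 + q ^ 2 * (q * a) + β ≤ x → x < q ^ 2 + q ^ 2 * q + β → x ∈ A := by
      intro x hx1 hx2
      have hxA : x - β ∈ A := by
        have : (x - β - q ^ 2) / q ^ 2 ∈ A := by
          apply h.mid
          · rw [le_div_iff₀ hb]; linarith
          · rw [div_le_iff₀ hb]; linarith
        have := h.up2 _ this
        rw [mul_div_cancel₀ _ hb.ne'] at this
        simpa using this
      rcases hW _ hxA (by nlinarith) with h5 | h5
      · simpa using h5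
      · exfalso
        have := (h.sub _ h5).1
        linarith
    have hlt : q ^ 2 + q ^ 2 * (q * a) + β < q ^ 2 + q ^ 2 * q + β := by nlinarith
    have hI' := h.close_right _ _ hlt hI
    rcases h.exact_len _ _ hI' (by ring) with h5 | ⟨t, ht, h5⟩
    · nlinarith [h5.2]
    · have hβt : β = t - q ^ 2 := by linarith
      rcases ht with ht | ht | ht | ht
      · exfalso; nlinarith
      · exfalso; nlinarith
      · linarith
      · exfalso; linarith

/-- Long intervals right of the middle are impossible. -/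
theorem no_long (l r : ℝ) (hlr : l < r) (hI : ∀ x, l < x → x < r → x ∈ A)
    (hlen : q ^ 2 * (1 - a) ≤ r - l) (hloc : q < r) : False := by
  have hb := h.b0
  have hq0 := h.q0
  have hq2 := h.q2
  have ha0 := h.a0
  have ha1 := h.a1
  have := h.long l r hlr.le (h.close_open l r hlr hI) (by nlinarith [mul_pos hb (sub_pos.mpr ha1)])
  linarith [this.2]

/-- Third restriction: the condition at the middle interval. -/
theorem step3 {β : ℝ} (hW : Wk A β) (h1 : q ^ 2 ≤ β) (h2 : β ≤ q - q ^ 2) :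
    β ≤ q - q * a ∧ (2 * β - (q - q * a) ≤ 0 ∨
      (2 * β - (q - q * a) ≤ q ^ 2 * a ∧ 2 * β - (q - q * a) ∈ D1 a A)) := by
  have hb := h.b0
  have hq0 := h.q0
  have hq2 := h.q2
  have ha0 := h.a0
  have ha1 := h.a1
  have hqa := h.qa
  have hqalt := h.qalt
  have haeq := h.aeq
  have hba : q ^ 2 * a < q ^ 2 := by nlinarith
  -- the basic alternative
  have key : ∀ s, β - (q - q * a) ≤ s → s ≤ β → q + s ∈ A ∨ q * a + 2 * β - s ∈ A := by
    intro s hs1 hs2
    have hx : q + s - β ∈ A := h.mid _ (by linarith) (by linarith)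
    rcases hW _ hx (by nlinarith) with h3 | h3
    · left
      have e : q + s - β + β = q + s := by ring
      rwa [e] at h3
    · right
      have h4 := h.sym _ h3
      have e : a - (q + s - β - β) = q * a + 2 * β - s := by linarith
      rwa [e] at h4
  have hle : β ≤ q - q * a := by
    by_contra hcon
    push Not at hcon
    apply h.no_long (q * a + 2 * β - q ^ 2) (q * a + 2 * β - q ^ 2 * a) (by linarith) _
      (by linarith) (by nlinarith)
    intro x hx1 hx2
    have h3 := key (q * a + 2 * β - x) (by nlinarith) (by nlinarith)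
    have e : q * a + 2 * β - (q * a + 2 * β - x) = x := by ring
    rw [e] at h3
    rcases h3 with h3 | h3
    · exfalso
      rw [h.right _ (by nlinarith) (by nlinarith)] at h3
      exact h.gap1 _ (by linarith) (by linarith) h3
    · exact h3
  refine ⟨hle, ?_⟩
  by_cases hv0 : 2 * β - (q - q * a) ≤ 0
  · exact Or.inl hv0
  right
  push Not at hv0
  set v := 2 * β - (q - q * a) with hv
  have key2 : ∀ s, 0 ≤ s → s ≤ v → q + s ∈ A ∨ q + (v - s) ∈ A := by
    intro s hs1 hs2
    have h3 := key s (by linarith) (by linarith)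
    have e : q * a + 2 * β - s = q + (v - s) := by rw [hv]; ring
    rwa [e] at h3
  have hvba : v ≤ q ^ 2 * a := by
    by_contra hcon
    push Not at hcon
    rcases lt_or_ge v (q ^ 2) with h3 | h3
    · obtain ⟨y, hy0, hy1, hy2, hy3⟩ := h.acc (v - q ^ 2 * a) (by linarith)
      have h4 := key2 (v - y) (by nlinarith) (by linarith)
      have e : v - (v - y) = y := by ring
      rw [e] at h4
      rcases h4 with h4 | h4
      · rw [h.right _ (by nlinarith) (by nlinarith)] at h4
        exact h.gap1 _ (by linarith) (by linarith) h4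
      · rw [h.right _ hy0.le (by nlinarith)] at h4
        exact hy3 h4
    · apply h.no_long (q + (v - q ^ 2)) (q + (v - q ^ 2 * a)) (by linarith) _
        (by linarith) (by linarith)
      intro x hx1 hx2
      have h4 := key2 (q + v - x) (by nlinarith) (by linarith)
      have e : q + (v - (q + v - x)) = x := by ring
      rw [e] at h4
      rcases h4 with h4 | h4
      · exfalso
        rw [h.right _ (by nlinarith) (by nlinarith)] at h4
        exact h.gap1 _ (by linarith) (by linarith) h4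
      · exact h4
  refine ⟨hvba, hv0.le, by nlinarith, ?_⟩
  intro s hs1 hs2
  rcases key2 s hs1 hs2 with h3 | h3
  · left
    rwa [h.right _ hs1 (by nlinarith)] at h3
  · right
    rwa [h.right _ (by linarith) (by nlinarith)] at h3

theorem not_mem_D1_a : a ∉ D1 a A := by
  rintro ⟨-, -, h1⟩
  have hb := h.b0
  have ha0 := h.a0
  have ha1 := h.a1
  have hm1 : q ^ 2 * a < q ^ 2 * (1 + a) / 2 := by nlinarith
  have hm2 : q ^ 2 * (1 + a) / 2 < q ^ 2 := by nlinarith
  have hmA := h.gap1 _ hm1 hm2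
  have hqalt := h.qalt
  have hqa := h.qa
  rcases h1 (q ^ 2 * (1 + a) / 2) (by positivity) (by nlinarith [h.aeq]) with h2 | h2
  · exact hmA h2
  · rw [h.symiff] at h2
    exact hmA h2

theorem D1_scale {v : ℝ} (hv : v ∈ D1 a A) (hv2 : v ≤ q ^ 2 * a) : v / q ^ 2 ∈ D1 a A := by
  have hb := h.b0
  have ha1 := h.a1
  obtain ⟨h0, h1, h2⟩ := hv
  refine ⟨by positivity, by rw [div_le_iff₀ hb]; linarith, ?_⟩
  intro s hs1 hs2
  rw [le_div_iff₀ hb] at hs2
  have hs3 : s < 1 := by nlinarith
  rcases h2 (q ^ 2 * s) (by positivity) (by linarith) with h3 | h3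
  · left
    rwa [h.small' s hs3] at h3
  · right
    have e : v - q ^ 2 * s = q ^ 2 * (v / q ^ 2 - s) := by
      rw [mul_sub, mul_div_cancel₀ _ hb.ne']
    have h4 : v / q ^ 2 - s < 1 := by
      have : v / q ^ 2 ≤ a := by rw [div_le_iff₀ hb]; linarith
      linarith
    rwa [e, h.small' _ h4] at h3

/-- For `q ≥ 1/3` the center of distances is trivial. -/
theorem trivial_center (hq3 : 1 / 3 ≤ q) : centerOfDistances A = {0} := by
  ext α
  constructor
  · intro hα
    rw [Set.mem_singleton_iff]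
    by_contra hne
    have h0 : 0 < α := lt_of_le_of_ne ((mem_cod A α).1 hα).1 (Ne.symm hne)
    obtain ⟨k, β, -, h1, h2, hW⟩ := h.exists_scale hα h0
    obtain ⟨h3, h4⟩ := h.step2 hW h1 h2
    obtain ⟨h5, h6⟩ := h.step3 hW h3 h4
    have hb := h.b0
    have hq0 := h.q0
    have ha0 := h.a0
    have haeq := h.aeq
    have hqa := h.qa
    -- 2 q² - (q - q a) - q² a = q (3 q - 1)
    have hid : 2 * q ^ 2 - (q - q * a) - q ^ 2 * a = q * (3 * q - 1) := by nlinarith
    have hge : q ^ 2 * a ≤ 2 * q ^ 2 - (q - q * a) := by nlinarith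
    rcases h6 with h6 | ⟨h6, h7⟩
    · nlinarith [mul_pos hb ha0]
    · have h8 : 2 * β - (q - q * a) = q ^ 2 * a := by linarith
      have h9 := h.D1_scale h7 h6
      rw [h8, mul_div_cancel_left₀ _ hb.ne'] at h9
      exact h.not_mem_D1_a h9
  · intro hα
    rw [Set.mem_singleton_iff] at hα
    rw [hα, mem_cod]
    refine ⟨le_rfl, fun x hx => ?_⟩
    left; simpa using hx

end Sys

end Pool.Agent.Lib.MP_c27d8d_an
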