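import Pool.Agent.Lib.MP_c27d8d_an.Full

open Filter Topology

namespace Pool.Agent.Lib.MP_c27d8d_an

variable {q : ℝ}

/-- The value of a digit sequence. -/
noncomputable def val (q : ℝ) (ε : ℕ → Bool) : ℝ := ∑' i : ℕ, if ε i then q ^ (i + 1) else 0

theorem E_eq : E q = Set.range (val q) := by
  ext x
  constructor
  · rintro ⟨ε, rfl⟩; exact ⟨ε, rfl⟩
  · rintro ⟨ε, rfl⟩; exact ⟨ε, rfl⟩

theorem summ_geo (h0 : 0 < q) (h1 : q < 1 / 2) : Summable fun i : ℕ => q ^ (i + 1) := by
  have := (summable_geometric_of_lt_one h0.le (by linarith : q < 1)).mul_left q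
  refine this.congr fun i => ?_
  rw [pow_succ]; ring

theorem summ (h0 : 0 < q) (h1 : q < 1 / 2) (ε : ℕ → Bool) :
    Summable fun i : ℕ => if ε i then q ^ (i + 1) else 0 := by
  apply Summable.of_nonneg_of_le _ _ (summ_geo h0 h1)
  · intro i; split_ifs <;> positivity
  · intro i; split_ifs
    · exact le_rfl
    · positivity

theorem tsum_geo (h0 : 0 < q) (h1 : q < 1 / 2) : ∑' i : ℕ, q ^ (i + 1) = q / (1 - q) := by
  have e : (fun i : ℕ => q ^ (i + 1)) = fun i => q * q ^ i := by ext i; rw [pow_succ]; ring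
  rw [e, tsum_mul_left, tsum_geometric_of_lt_one h0.le (by linarith)]
  rfl

theorem val_nonneg (h0 : 0 < q) (ε : ℕ → Bool) : 0 ≤ val q ε :=
  tsum_nonneg fun i => by split_ifs <;> positivity

theorem val_le (h0 : 0 < q) (h1 : q < 1 / 2) (ε : ℕ → Bool) : val q ε ≤ q / (1 - q) := by
  rw [← tsum_geo h0 h1]
  apply (summ h0 h1 ε).tsum_le_tsum _ (summ_geo h0 h1)
  intro i; split_ifs
  · exact le_rfl
  · positivity

theorem val_succ (h0 : 0 < q) (h1 : q < 1 / 2) (ε : ℕ → Bool) :
    val q ε = (if ε 0 then q else 0) + q * val q (fun i => ε (i + 1)) := by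
  rw [val, (summ h0 h1 ε).tsum_eq_zero_add, val, ← tsum_mul_left]
  congr 1
  · simp
  · congr 1
    ext i
    split_ifs
    · rw [pow_succ q (i + 1)]; ring
    · simp

theorem s_succ (m : ℕ) (ε : ℕ → Bool) :
    s q (m + 1) ε = (if ε 0 then q else 0) + q * s q m (fun i => ε (i + 1)) := by
  rw [s, Finset.sum_range_succ', s, Finset.mul_sum, add_comm]
  congr 1
  · simp
  · apply Finset.sum_congr rfl
    intro i _
    split_ifs
    · rw [pow_succ q (i + 1)]; ring
    · simp

theorem r_succ (m : ℕ) : r q (m + 1) = q * r q m := by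
  simp only [r]
  rw [pow_succ]; ring

/-- Prepending a digit. -/
def cons (d : Bool) (ε : ℕ → Bool) : ℕ → Bool
  | 0 => d
  | (n + 1) => ε n

theorem adj_up (h0 : 0 < q) (h1 : q < 1 / 2) (d e : Bool) (x : ℝ) (hx : x ∈ adjoint q) :
    (if d then q else 0) + (if e then q ^ 2 else 0) + q ^ 2 * x ∈ adjoint q := by
  have key : ∀ y : ℝ, (if d then q else 0) + (if e then q ^ 2 else 0) + q ^ 2 * y =
      (if d then q else 0) + q * ((if e then q else 0) + q * y) := by
    intro y
    split_ifs <;> ring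
  rcases hx with ⟨ε, rfl⟩ | ⟨m, hm, ε, hx1, hx2⟩
  · left
    refine ⟨cons d (cons e ε), ?_⟩
    have h2 := val_succ h0 h1 (cons d (cons e ε))
    have h3 := val_succ h0 h1 (cons e ε)
    have e1 : (fun i => cons d (cons e ε) (i + 1)) = cons e ε := rfl
    have e2 : (fun i => cons e ε (i + 1)) = ε := rfl
    rw [e1] at h2
    rw [e2] at h3
    rw [key]
    show _ = val q (cons d (cons e ε))
    rw [h2, h3]
    rfl
  · right
    obtain ⟨k, hk⟩ := hm
    refine ⟨m + 2, ⟨k + 1, by omega⟩, cons d (cons e ε), ?_, ?_⟩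
    · have e0 : m + 2 - 1 = (m - 1) + 1 + 1 := by omega
      rw [e0, s_succ, r_succ, r_succ]
      have e1 : (fun i => cons d (cons e ε) (i + 1)) = cons e ε := rfl
      rw [e1, s_succ]
      have e2 : (fun i => cons e ε (i + 1)) = ε := rfl
      rw [e2, key]
      have e3 : cons d (cons e ε) 0 = d := rfl
      have e4 : cons e ε 0 = e := rfl
      rw [e3, e4]
      have h5 : q * (q * (s q (m - 1) ε + r q m)) < q * (q * x) := by
        apply mul_lt_mul_of_pos_left _ h0
        exact mul_lt_mul_of_pos_left hx1 h0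
      linarith
    · have e0 : m + 2 - 1 = (m - 1) + 1 + 1 := by omega
      rw [e0, s_succ]
      have e1 : (fun i => cons d (cons e ε) (i + 1)) = cons e ε := rfl
      rw [e1, s_succ]
      have e2 : (fun i => cons e ε (i + 1)) = ε := rfl
      rw [e2, key]
      have e3 : cons d (cons e ε) 0 = d := rfl
      have e4 : cons e ε 0 = e := rfl
      rw [e3, e4]
      have h5 : q * (q * x) < q * (q * (s q (m - 1) ε + q ^ m)) := by
        apply mul_lt_mul_of_pos_left _ h0
        exact mul_lt_mul_of_pos_left hx2 h0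
      have e5 : q ^ (m + 2) = q * (q * q ^ m) := by ring
      rw [e5]
      linarith

theorem adj_down (h0 : 0 < q) (h1 : q < 1 / 2) (x : ℝ) (hx : x ∈ adjoint q) :
    (q * (q / (1 - q)) ≤ x ∧ x ≤ q) ∨ ∃ d e : Bool,
      (x - (if d then q else 0) - (if e then q ^ 2 else 0)) / q ^ 2 ∈ adjoint q := by
  have hb : 0 < q ^ 2 := by positivity
  rcases hx with ⟨ε, rfl⟩ | ⟨m, hm, ε, hx1, hx2⟩
  · right
    refine ⟨ε 0, ε 1, Or.inl ⟨fun i => ε (i + 2), ?_⟩⟩
    have h2 := val_succ h0 h1 ε
    have h3 := val_succ h0 h1 (fun i => ε (i + 1))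
    rw [h3] at h2
    show (val q ε - _ - _) / q ^ 2 = val q (fun i => ε (i + 2))
    rw [h2, div_eq_iff hb.ne']
    have e0 : (fun i => (fun i => ε (i + 1)) (i + 1)) = fun i => ε (i + 2) := rfl
    rw [e0]
    have e1 : (0 : ℕ) + 1 = 1 := rfl
    simp only [e1]
    split_ifs <;> ring
  · obtain ⟨k, hk⟩ := hm
    rcases k with _ | k
    · left
      have hm1 : m = 1 := by omega
      subst hm1
      simp only [s, r, Nat.sub_self, Finset.range_zero, Finset.sum_empty, zero_add, pow_one] at hx1 hx2
      constructor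
      · have : q * (q / (1 - q)) = q ^ (1 + 1) / (1 - q) := by ring
        rw [this]; exact hx1.le
      · exact hx2.le
    · right
      refine ⟨ε 0, ε 1, Or.inr ⟨2 * k + 1, ⟨k, rfl⟩, fun i => ε (i + 2), ?_, ?_⟩⟩
      · have e0 : m - 1 = 2 * k + 1 + 1 := by omega
        have e1 : m = 2 * k + 1 + 1 + 1 := by omega
        rw [e0, s_succ, s_succ] at hx1
        rw [e1, r_succ, r_succ] at hx1
        rw [lt_div_iff₀ hb]
        have e2 : 2 * k + 1 - 1 = 2 * k := by omega
        rw [e2]
        have e3 : (fun i => (fun i => ε (i + 1)) (i + 1)) = fun i => ε (i + 2) := rfl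
        rw [e3] at hx1
        have e4 : (0 : ℕ) + 1 = 1 := rfl
        simp only [e4] at hx1
        split_ifs at hx1 ⊢ <;> linarith
      · have e0 : m - 1 = 2 * k + 1 + 1 := by omega
        have e1 : m = 2 * k + 1 + 2 := by omega
        rw [e0, s_succ, s_succ] at hx2
        rw [e1] at hx2
        rw [div_lt_iff₀ hb]
        have e2 : 2 * k + 1 - 1 = 2 * k := by omega
        rw [e2]
        have e3 : (fun i => (fun i => ε (i + 1)) (i + 1)) = fun i => ε (i + 2) := rfl
        rw [e3] at hx2
        have e4 : (0 : ℕ) + 1 = 1 := rfl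
        have e5 : q ^ (2 * k + 1 + 2) = q ^ (2 * k + 1) * q ^ 2 := by ring
        rw [e5] at hx2
        simp only [e4] at hx2
        split_ifs at hx2 ⊢ <;> linarith

theorem s_compl (m : ℕ) (ε : ℕ → Bool) :
    s q m (fun i => !(ε i)) = ∑ i ∈ Finset.range m, q ^ (i + 1) - s q m ε := by
  rw [s, s, ← Finset.sum_sub_distrib]
  apply Finset.sum_congr rfl
  intro i _
  cases ε i <;> simp

theorem sum_pow (h1 : q < 1 / 2) (m : ℕ) :
    ∑ i ∈ Finset.range m, q ^ (i + 1) = q / (1 - q) - q ^ (m + 1) / (1 - q) := by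
  have hne : (1 - q) ≠ 0 := by
    have : 0 < 1 - q := by linarith
    exact this.ne'
  induction m with
  | zero => simp
  | succ m ih =>
    rw [Finset.sum_range_succ, ih]
    field_simp
    ring

theorem adj_sym (h0 : 0 < q) (h1 : q < 1 / 2) (x : ℝ) (hx : x ∈ adjoint q) :
    q / (1 - q) - x ∈ adjoint q := by
  have hne : (1 - q) ≠ 0 := by
    have : 0 < 1 - q := by linarith
    exact this.ne'
  rcases hx with ⟨ε, rfl⟩ | ⟨m, hm, ε, hx1, hx2⟩
  · left
    refine ⟨fun i => !(ε i), ?_⟩
    rw [← tsum_geo h0 h1, ← (summ_geo h0 h1).tsum_sub (summ h0 h1 ε)]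
    congr 1
    ext i
    by_cases hε : ε i = true
    · simp [hε]
    · simp only [Bool.not_eq_true] at hε
      simp [hε]
  · right
    obtain ⟨k, hk⟩ := hm
    have hr : r q m + q ^ m = q ^ (m - 1 + 1) / (1 - q) := by
      have e : m - 1 + 1 = m := by omega
      rw [e, r]
      field_simp
      ring
    refine ⟨m, ⟨k, hk⟩, fun i => !(ε i), ?_, ?_⟩
    · rw [s_compl, sum_pow h1]
      linarith
    · rw [s_compl, sum_pow h1]
      linarith

theorem adj_sub (h0 : 0 < q) (h1 : q < 1 / 2) (x : ℝ) (hx : x ∈ adjoint q) :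
    0 ≤ x ∧ x ≤ q / (1 - q) := by
  have h2 : ∀ x ∈ adjoint q, 0 ≤ x := by
    rintro x (⟨ε, rfl⟩ | ⟨m, hm, ε, hx1, hx2⟩)
    · exact val_nonneg h0 ε
    · have h3 : 0 ≤ s q (m - 1) ε := Finset.sum_nonneg fun i _ => by split_ifs <;> positivity
      have h4 : 0 ≤ r q m := by
        rw [r]
        apply div_nonneg (by positivity); linarith
      linarith
  refine ⟨h2 x hx, ?_⟩
  have := h2 _ (adj_sym h0 h1 x hx)
  linarith

theorem adj_zero : (0 : ℝ) ∈ adjoint q := by
  left
  exact ⟨fun _ => false, by simp⟩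

/-- Closed gaps of odd steps. -/
def Gc (q : ℝ) (m : ℕ) : Set ℝ :=
  {x | ∃ ε : ℕ → Bool, s q (m - 1) ε + r q m ≤ x ∧ x ≤ s q (m - 1) ε + q ^ m}

theorem left_end (h0 : 0 < q) (h1 : q < 1 / 2) (m : ℕ) (ε : ℕ → Bool) :
    s q m ε + q ^ (m + 2) / (1 - q) ∈ E q := by
  induction m generalizing ε with
  | zero =>
    refine ⟨cons false (fun _ => true), ?_⟩
    have h2 := val_succ h0 h1 (cons false (fun _ => true))
    have e1 : (fun i => cons false (fun _ => true) (i + 1)) = fun _ => true := rfl
    rw [e1] at h2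
    have h3 : val q (fun _ => true) = q / (1 - q) := by
      rw [← tsum_geo h0 h1, val]
      simp
    show _ = val q _
    rw [h2, h3, s]
    have e2 : cons false (fun _ => true) 0 = false := rfl
    rw [e2]
    simp
    ring
  | succ m ih =>
    obtain ⟨η, hη⟩ := ih (fun i => ε (i + 1))
    refine ⟨cons (ε 0) η, ?_⟩
    have h2 := val_succ h0 h1 (cons (ε 0) η)
    have e1 : (fun i => cons (ε 0) η (i + 1)) = η := rfl
    rw [e1] at h2
    show _ = val q _
    have e2 : cons (ε 0) η 0 = ε 0 := rfl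
    have e3 : val q η = s q m (fun i => ε (i + 1)) + q ^ (m + 2) / (1 - q) := hη.symm
    rw [h2, e2, e3, s_succ]
    ring

theorem right_end (h0 : 0 < q) (h1 : q < 1 / 2) (m : ℕ) (ε : ℕ → Bool) :
    s q m ε + q ^ (m + 1) ∈ E q := by
  induction m generalizing ε with
  | zero =>
    refine ⟨cons true (fun _ => false), ?_⟩
    have h2 := val_succ h0 h1 (cons true (fun _ => false))
    have e1 : (fun i => cons true (fun _ => false) (i + 1)) = fun _ => false := rfl
    rw [e1] at h2
    have h3 : val q (fun _ => false) = 0 := by simp [val]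
    show _ = val q _
    rw [h2, h3, s]
    have e2 : cons true (fun _ => false) 0 = true := rfl
    rw [e2]
    simp
  | succ m ih =>
    obtain ⟨η, hη⟩ := ih (fun i => ε (i + 1))
    refine ⟨cons (ε 0) η, ?_⟩
    have h2 := val_succ h0 h1 (cons (ε 0) η)
    have e1 : (fun i => cons (ε 0) η (i + 1)) = η := rfl
    rw [e1] at h2
    show _ = val q _
    have e2 : cons (ε 0) η 0 = ε 0 := rfl
    have e3 : val q η = s q m (fun i => ε (i + 1)) + q ^ (m + 1) := hη.symm
    rw [h2, e2, e3, s_succ]
    ring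

theorem Gc_sub (h0 : 0 < q) (h1 : q < 1 / 2) (m : ℕ) (hm : Odd m) : Gc q m ⊆ adjoint q := by
  rintro x ⟨ε, hx1, hx2⟩
  obtain ⟨k, hk⟩ := hm
  rcases eq_or_lt_of_le hx1 with h2 | h2
  · left
    rw [← h2, r]
    have e : m + 1 = m - 1 + 2 := by omega
    rw [e]
    exact left_end h0 h1 _ _
  · rcases eq_or_lt_of_le hx2 with h3 | h3
    · left
      rw [h3]
      have e : m = m - 1 + 1 := by omega
      have := right_end h0 h1 (m - 1) ε
      rwa [← e] at this
    · right
      exact ⟨m, ⟨k, hk⟩, ε, h2, h3⟩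

theorem Gc_closed (m : ℕ) : IsClosed (Gc q m) := by
  classical
  have hfin : (Set.range (s q (m - 1))).Finite := by
    apply Set.Finite.subset ((Finset.range (m - 1)).powerset.finite_toSet.image
      fun t : Finset ℕ => ∑ i ∈ t, q ^ (i + 1))
    rintro _ ⟨ε, rfl⟩
    refine ⟨(Finset.range (m - 1)).filter fun i => ε i = true, ?_, ?_⟩
    · simp only [Finset.coe_powerset, Finset.coe_filter, Set.mem_preimage, Set.mem_powerset_iff]
      intro y hy
      exact hy.1
    · simp only [s]
      rw [Finset.sum_filter]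
  have : Gc q m = ⋃ v ∈ Set.range (s q (m - 1)), Set.Icc (v + r q m) (v + q ^ m) := by
    ext x
    simp only [Gc, Set.mem_ofPred_eq, Set.mem_iUnion, Set.mem_range, exists_prop, Set.mem_Icc]
    constructor
    · rintro ⟨ε, h1, h2⟩
      exact ⟨_, ⟨ε, rfl⟩, h1, h2⟩
    · rintro ⟨_, ⟨ε, rfl⟩, h1, h2⟩
      exact ⟨ε, h1, h2⟩
  rw [this]
  exact hfin.isClosed_biUnion fun _ _ => isClosed_Icc

theorem E_compact (h0 : 0 < q) (h1 : q < 1 / 2) : IsCompact (E q) := by
  rw [E_eq]
  apply isCompact_range
  apply continuous_tsum (u := fun i : ℕ => q ^ (i + 1)) _ (summ_geo h0 h1)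
  · intro i ε
    split_ifs
    · rw [Real.norm_of_nonneg (by positivity)]
    · simp; positivity
  · intro i
    have : (fun ε : ℕ → Bool => if ε i = true then q ^ (i + 1) else (0 : ℝ)) =
        (fun b : Bool => if b = true then q ^ (i + 1) else (0 : ℝ)) ∘ fun ε : ℕ → Bool => ε i := rfl
    rw [this]
    exact continuous_of_discreteTopology.comp (continuous_apply i)

theorem adj_closed (h0 : 0 < q) (h1 : q < 1 / 2) : IsClosed (adjoint q) := by
  have hE := E_compact h0 h1
  have hEne : (E q).Nonempty := ⟨0, fun _ => false, by simp⟩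
  have hq1 : q < 1 := by linarith
  have hm : adjoint q = ⋂ N : ℕ, ({x | Metric.infDist x (E q) ≤ q ^ N} ∪
      ⋃ m ∈ (Finset.range N).filter (fun m => Odd m), Gc q m) := by
    ext x
    rw [Set.mem_iInter]
    constructor
    · rintro (hx | ⟨m, hm, hx⟩) N
      · left
        show Metric.infDist x (E q) ≤ q ^ N
        rw [Metric.infDist_zero_of_mem hx]; positivity
      · obtain ⟨ε, hx1, hx2⟩ := hx
        rcases lt_or_ge m N with h2 | h2
        · right
          simp only [Set.mem_iUnion]
          exact ⟨m, by simp [h2, hm], ε, hx1.le, hx2.le⟩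
        · left
          show Metric.infDist x (E q) ≤ q ^ N
          obtain ⟨k, hk⟩ := hm
          have e : m = m - 1 + 1 := by omega
          have h3 := right_end h0 h1 (m - 1) ε
          rw [← e] at h3
          have h4 : 0 ≤ r q m := by
            rw [r]
            apply div_nonneg (by positivity); linarith
          calc Metric.infDist x (E q) ≤ dist x (s q (m - 1) ε + q ^ m) :=
                Metric.infDist_le_dist_of_mem h3
            _ = s q (m - 1) ε + q ^ m - x := by
                rw [Real.dist_eq, abs_sub_comm, abs_of_pos (by linarith)]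
            _ ≤ q ^ m := by linarith
            _ ≤ q ^ N := pow_le_pow_of_le_one h0.le hq1.le h2
    · intro hx
      by_cases hxE : x ∈ E q
      · exact Or.inl hxE
      have hpos : 0 < Metric.infDist x (E q) :=
        (hE.isClosed.notMem_iff_infDist_pos hEne).1 hxE
      obtain ⟨N, hN⟩ := exists_pow_lt_of_lt_one hpos hq1
      rcases hx N with h2 | h2
      · have h2' : Metric.infDist x (E q) ≤ q ^ N := h2
        linarith
      · simp only [Set.mem_iUnion] at h2
        obtain ⟨m, hm, hxm⟩ := h2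
        simp only [Finset.mem_filter] at hm
        exact Gc_sub h0 h1 m hm.2 hxm
  rw [hm]
  apply isClosed_iInter
  intro N
  apply IsClosed.union
  · exact isClosed_le (Metric.continuous_infDist_pt _) continuous_const
  · apply Set.Finite.isClosed_biUnion (Finset.finite_toSet _)
    intro m _
    exact Gc_closed m

theorem sys (h0 : 0 < q) (h1 : q < 1 / 2) : Sys q (q / (1 - q)) (adjoint q) where
  q0 := h0
  q2 := h1
  ha := by
    have : (1 - q) ≠ 0 := by
      have : 0 < 1 - q := by linarith
      exact this.ne'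
    field_simp
  sub := adj_sub h0 h1
  zero := adj_zero
  sym := adj_sym h0 h1
  closed := adj_closed h0 h1
  mid := by
    intro x hx1 hx2
    apply Gc_sub h0 h1 1 (by decide)
    refine ⟨fun _ => false, ?_, ?_⟩
    · simp only [s, r, Nat.sub_self, Finset.range_zero, Finset.sum_empty, zero_add]
      have : q * (q / (1 - q)) = q ^ (1 + 1) / (1 - q) := by ring
      rw [← this]; exact hx1
    · simp only [s, Nat.sub_self, Finset.range_zero, Finset.sum_empty, zero_add, pow_one]
      exact hx2
  down := by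
    intro x hx
    rcases adj_down h0 h1 x hx with h2 | ⟨d, e, h2⟩
    · exact Or.inl h2
    · right
      cases d <;> cases e <;> simp at h2 <;> simp [h2]
  up1 := by
    intro x hx
    simpa using adj_up h0 h1 false false x hx
  up2 := by
    intro x hx
    simpa using adj_up h0 h1 false true x hx
  up3 := by
    intro x hx
    simpa using adj_up h0 h1 true false x hx
  up4 := by
    intro x hx
    simpa using adj_up h0 h1 true true x hx

theorem isAuxSet_iff (q : ℝ) (D : Set ℝ) : IsAuxSet q D ↔ IsAux q (q / (1 - q)) D := by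
  have e : 2 * q ^ 2 / (1 - q) = 2 * (q * (q / (1 - q))) := by ring
  simp only [IsAuxSet, IsAux, e]

end Pool.Agent.Lib.MP_c27d8d_an
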