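import Pool.Agent.Lib.MP_c27d8d_an.Center

namespace Pool.Agent.Lib.MP_c27d8d_an

namespace Sys

variable {q a : ℝ} {A : Set ℝ} (h : Sys q a A)
include h

/-- One step of the analysis of complementary intervals. -/
theorem gapstep (l r : ℝ) (hlr : l < r) (hl : 0 ≤ l) (hr : r ≤ a)
    (hI : ∀ x, l < x → x < r → x ∉ A) :
    (q ^ 2 * a ≤ l ∧ r ≤ q ^ 2) ∨ (q + q ^ 2 * a ≤ l ∧ r ≤ q + q ^ 2) ∨
      ∃ t : ℝ, 0 ≤ (l - t) / q ^ 2 ∧ (r - t) / q ^ 2 ≤ a ∧
        ∀ x, (l - t) / q ^ 2 < x → x < (r - t) / q ^ 2 → x ∉ A := by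
  have hb := h.b0
  have hq0 := h.q0
  have hq2 := h.q2
  have ha0 := h.a0
  have ha1 := h.a1
  have hqa := h.qa
  have hqalt := h.qalt
  have haeq := h.aeq
  have hba : q ^ 2 * a < q ^ 2 := by nlinarith
  have hno : ∀ p ∈ A, ¬ (l < p ∧ p < r) := fun p hp hlp => hI p hlp.1 hlp.2 hp
  have m1 : q ^ 2 * a ∈ A := h.up1 _ h.amem
  have m2 : q ^ 2 ∈ A := by simpa using h.up2 _ h.zero
  have m3 : q + q ^ 2 * a ∈ A := h.up3 _ h.amem
  have m4 : q + q ^ 2 ∈ A := by simpa using h.up4 _ h.zero
  rcases le_or_gt r (q * a) with h1 | h1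
  · rcases lt_or_ge l (q ^ 2 * a) with h2 | h2
    · right; right
      refine ⟨0, by rw [sub_zero]; positivity, ?_, ?_⟩
      · have : ¬ (q ^ 2 * a < r) := fun h' => hno _ m1 ⟨h2, h'⟩
        push Not at this
        rw [sub_zero, div_le_iff₀ hb]; linarith
      · intro x hx1 hx2 hxA
        rw [sub_zero] at hx1 hx2
        rw [div_lt_iff₀ hb] at hx1
        rw [lt_div_iff₀ hb] at hx2
        exact hI (q ^ 2 * x) (by linarith) (by linarith) (h.up1 _ hxA)
    · rcases lt_or_ge l (q ^ 2) with h3 | h3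
      · left
        refine ⟨h2, ?_⟩
        have : ¬ (q ^ 2 < r) := fun h' => hno _ m2 ⟨h3, h'⟩
        push Not at this
        exact this
      · right; right
        refine ⟨q ^ 2, ?_, ?_, ?_⟩
        · apply div_nonneg _ hb.le; linarith
        · rw [div_le_iff₀ hb]; linarith
        · intro x hx1 hx2 hxA
          rw [div_lt_iff₀ hb] at hx1
          rw [lt_div_iff₀ hb] at hx2
          exact hI (q ^ 2 + q ^ 2 * x) (by linarith) (by linarith) (h.up2 _ hxA)
  · have hlq : q ≤ l := by
      by_contra hcon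
      push Not at hcon
      have h4 : max l (q * a) < min r q := max_lt (lt_min hlr hcon) (lt_min h1 hqalt)
      have h5 := le_max_left l (q * a)
      have h6 := le_max_right l (q * a)
      have h7 := min_le_left r q
      have h8 := min_le_right r q
      exact hI ((max l (q * a) + min r q) / 2) (by linarith) (by linarith)
        (h.mid _ (by linarith) (by linarith))
    rcases lt_or_ge l (q + q ^ 2 * a) with h2 | h2
    · right; right
      refine ⟨q, ?_, ?_, ?_⟩
      · apply div_nonneg _ hb.le; linarith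
      · have : ¬ (q + q ^ 2 * a < r) := fun h' => hno _ m3 ⟨h2, h'⟩
        push Not at this
        rw [div_le_iff₀ hb]; linarith
      · intro x hx1 hx2 hxA
        rw [div_lt_iff₀ hb] at hx1
        rw [lt_div_iff₀ hb] at hx2
        exact hI (q + q ^ 2 * x) (by linarith) (by linarith) (h.up3 _ hxA)
    · rcases lt_or_ge l (q + q ^ 2) with h3 | h3
      · right; left
        refine ⟨h2, ?_⟩
        have : ¬ (q + q ^ 2 < r) := fun h' => hno _ m4 ⟨h3, h'⟩
        push Not at this
        exact this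
      · right; right
        refine ⟨q + q ^ 2, ?_, ?_, ?_⟩
        · apply div_nonneg _ hb.le; linarith
        · rw [div_le_iff₀ hb]; linarith
        · intro x hx1 hx2 hxA
          rw [div_lt_iff₀ hb] at hx1
          rw [lt_div_iff₀ hb] at hx2
          exact hI (q + q ^ 2 + q ^ 2 * x) (by linarith) (by linarith) (h.up4 _ hxA)

theorem gap_len (l r : ℝ) (hlr : l < r) (hl : 0 ≤ l) (hr : r ≤ a)
    (hI : ∀ x, l < x → x < r → x ∉ A) : r - l ≤ q ^ 2 * (1 - a) := by
  by_contra hcon
  push Not at hcon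
  have hb := h.b0
  have hb1 : q ^ 2 < 1 := by nlinarith [h.q0, h.q2]
  have key : ∀ n : ℕ, ∀ l r : ℝ, l < r → 0 ≤ l → r ≤ a → (∀ x, l < x → x < r → x ∉ A) →
      q ^ 2 * (1 - a) < r - l → r - l ≤ (q ^ 2) ^ n * a := by
    intro n
    induction n with
    | zero =>
      intro l r hlr hl hr hI _
      simp; linarith
    | succ n ih =>
      intro l r hlr hl hr hI hlt
      rcases h.gapstep l r hlr hl hr hI with h1 | h1 | ⟨t, h1, h2, h3⟩
      · linarith [h1.1, h1.2]
      · linarith [h1.1, h1.2]
      · have h4 : (l - t) / q ^ 2 < (r - t) / q ^ 2 := by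
          apply div_lt_div_of_pos_right _ hb; linarith
        have e : (r - t) / q ^ 2 - (l - t) / q ^ 2 = (r - l) / q ^ 2 := by
          rw [← sub_div]; congr 1; ring
        have h5 : r - l ≤ (r - l) / q ^ 2 := by
          rw [le_div_iff₀ hb]; nlinarith
        have h6 := ih _ _ h4 h1 h2 h3 (by rw [e]; linarith)
        rw [e, div_le_iff₀ hb] at h6
        calc r - l ≤ (q ^ 2) ^ n * a * q ^ 2 := h6
          _ = (q ^ 2) ^ (n + 1) * a := by ring
  have hlim : Filter.Tendsto (fun k : ℕ => (q ^ 2) ^ k * a) Filter.atTop (nhds (0 * a)) :=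
    (tendsto_pow_atTop_nhds_zero_of_lt_one hb.le hb1).mul_const a
  rw [zero_mul] at hlim
  obtain ⟨n, hn⟩ := (hlim.eventually_lt_const (show 0 < r - l by linarith)).exists
  have := key n l r hlr hl hr hI hcon
  linarith

theorem gap_exact (l r : ℝ) (hl : 0 ≤ l) (hr : r ≤ a)
    (hI : ∀ x, l < x → x < r → x ∉ A) (hlen : r - l = q ^ 2 * (1 - a)) :
    l = q ^ 2 * a ∨ l = q + q ^ 2 * a := by
  have hb := h.b0
  have ha1 := h.a1
  have hb1 : q ^ 2 < 1 := by nlinarith [h.q0, h.q2]
  have hlr : l < r := by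
    have : 0 < q ^ 2 * (1 - a) := mul_pos hb (by linarith)
    linarith
  rcases h.gapstep l r hlr hl hr hI with h1 | h1 | ⟨t, h1, h2, h3⟩
  · left; linarith [h1.1, h1.2]
  · right; linarith [h1.1, h1.2]
  · exfalso
    have h4 : (l - t) / q ^ 2 < (r - t) / q ^ 2 := by
      apply div_lt_div_of_pos_right _ hb; linarith
    have e : (r - t) / q ^ 2 - (l - t) / q ^ 2 = (r - l) / q ^ 2 := by
      rw [← sub_div]; congr 1; ring
    have h5 := h.gap_len _ _ h4 h1 h2 h3
    rw [e, hlen, mul_div_cancel_left₀ _ hb.ne'] at h5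
    nlinarith

/-- Symmetric initial segments. -/
theorem sym_init {γ : ℝ} (h0 : 0 < γ) (h1 : γ ≤ a) (hs : ∀ x ∈ A, x ≤ γ → γ - x ∈ A) :
    ∃ j : ℕ, γ = q ^ j * a := by
  classical
  have hb := h.b0
  have hb1 : q ^ 2 < 1 := by nlinarith [h.q0, h.q2]
  have hq0 := h.q0
  have ha0 := h.a0
  have ha1 := h.a1
  have hqa := h.qa
  have hqalt := h.qalt
  have haeq := h.aeq
  have hlim : Filter.Tendsto (fun k : ℕ => (q ^ 2) ^ (k + 1) * a) Filter.atTop (nhds (0 * a)) :=
    ((tendsto_pow_atTop_nhds_zero_of_lt_one hb.le hb1).comp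
      (Filter.tendsto_add_atTop_nat 1)).mul_const a
  rw [zero_mul] at hlim
  have hex : ∃ k : ℕ, (q ^ 2) ^ (k + 1) * a < γ := (hlim.eventually_lt_const h0).exists
  set k := Nat.find hex with hk
  have hk1 : (q ^ 2) ^ (k + 1) * a < γ := Nat.find_spec hex
  have hk2 : γ ≤ (q ^ 2) ^ k * a := by
    rcases Nat.eq_zero_or_pos k with h2 | h2
    · rw [h2, pow_zero, one_mul]; exact h1
    · have := Nat.find_min hex (show k - 1 < Nat.find hex by omega)
      push Not at this
      have e : k - 1 + 1 = k := by omega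
      rwa [e] at this
  have hbk : 0 < (q ^ 2) ^ k := by positivity
  obtain ⟨γ', hγ'⟩ : ∃ γ', γ = (q ^ 2) ^ k * γ' := ⟨γ / (q ^ 2) ^ k, by field_simp⟩
  have h3 : q ^ 2 * a < γ' := by
    rw [hγ'] at hk1
    have e : (q ^ 2) ^ (k + 1) * a = (q ^ 2) ^ k * (q ^ 2 * a) := by ring
    rw [e] at hk1
    exact lt_of_mul_lt_mul_left hk1 hbk.le
  have h4 : γ' ≤ a := by
    rw [hγ'] at hk2
    exact le_of_mul_le_mul_left hk2 hbk
  have hs' : ∀ x ∈ A, x ≤ γ' → γ' - x ∈ A := by
    intro x hx hxγ
    have hx0 := (h.sub x hx).1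
    have h5 : (q ^ 2) ^ k * x ∈ A := (h.smallk k x (by linarith)).2 hx
    have h6 := hs _ h5 (by rw [hγ']; exact mul_le_mul_of_nonneg_left hxγ hbk.le)
    rw [hγ', ← mul_sub] at h6
    exact (h.smallk k _ (by linarith)).1 h6
  have hγA : γ' ∈ A := by simpa using hs' 0 h.zero (by nlinarith [mul_pos hb ha0])
  have h5 : q ^ 2 ≤ γ' := by
    by_contra hcon
    push Not at hcon
    have := h.le_of_mem_small _ hγA hcon
    linarith
  have h6 : ∀ x, γ' - q ^ 2 < x → x < γ' - q ^ 2 * a → x ∉ A := by
    intro x hx1 hx2 hxA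
    have hpos : 0 < q ^ 2 * a := by positivity
    exact h.gap1 (γ' - x) (by linarith) (by linarith) (hs' x hxA (by linarith))
  have hpos : 0 < q ^ 2 * a := by positivity
  rcases h.gap_exact _ _ (by linarith) (by linarith) h6 (by ring) with h7 | h7
  · refine ⟨2 * k + 1, ?_⟩
    have : γ' = q * a := by linarith
    rw [hγ', this]
    ring
  · refine ⟨2 * k, ?_⟩
    have : γ' = a := by linarith
    rw [hγ', this]
    ring

/-- The initial segments of length `q ^ n * a` are symmetric. -/
theorem sym_pow (n : ℕ) : ∀ x ∈ A, x ≤ q ^ n * a → q ^ n * a - x ∈ A := by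
  have hb := h.b0
  have hq0 := h.q0
  have hq2 := h.q2
  have ha0 := h.a0
  have ha1 := h.a1
  induction n using Nat.twoStepInduction with
  | zero => intro x hx _; simpa using h.sym x hx
  | one =>
    intro x hx hle
    rw [pow_one] at hle ⊢
    exact (h.symleft x (h.sub x hx).1 hle).2 hx
  | more n ih _ =>
    intro x hx hle
    have e : q ^ (n + 2) * a = q ^ 2 * (q ^ n * a) := by ring
    rw [e] at hle ⊢
    have h1 : q ^ n * a < 1 := by
      have : q ^ n ≤ 1 := pow_le_one₀ hq0.le (by linarith)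
      have : 0 < q ^ n := by positivity
      nlinarith
    have h2 : x < q ^ 2 := by nlinarith
    have h3 := (h.small x h2).1 hx
    have h4 := ih _ h3 (by rw [div_le_iff₀ hb]; linarith)
    have h5 := h.up1 _ h4
    have e2 : q ^ 2 * (q ^ n * a - x / q ^ 2) = q ^ 2 * (q ^ n * a) - x := by
      rw [mul_sub, mul_div_cancel₀ _ hb.ne']
    rwa [e2] at h5

theorem sum_eq (n : ℕ) (hn : 1 ≤ n) : ∑ i ∈ Finset.Icc 2 n, q ^ i = q * a - q ^ n * a := by
  induction n, hn using Nat.le_induction with
  | base => simp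
  | succ n hn ih =>
    rw [Finset.sum_Icc_succ_top (by omega), ih]
    have := h.aeq
    have e : q ^ (n + 1) * a = q ^ n * (q * a) := by ring
    rw [e]
    have : q * a = a - q := by linarith
    rw [this]
    ring

/-- Fourth restriction: short distances are partial sums. -/
theorem step4 {β : ℝ} (hW : Wk A β) (h1 : q ^ 2 ≤ β) (h2 : β < q * a) :
    ∃ n : ℕ, 2 ≤ n ∧ β = ∑ i ∈ Finset.Icc 2 n, q ^ i := by
  have hb := h.b0
  have hq0 := h.q0
  have hq2 := h.q2
  have ha0 := h.a0
  have ha1 := h.a1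
  have hqa := h.qa
  have hqalt := h.qalt
  have haeq := h.aeq
  have hs : ∀ x ∈ A, x ≤ q * a - β → (q * a - β) - x ∈ A := by
    intro x hx hle
    have hx0 := (h.sub x hx).1
    rcases hW x hx (by linarith) with h3 | h3
    · have e : x + β = q * a - ((q * a - β) - x) := by ring
      rw [e, h.symleft _ (by linarith) (by linarith)] at h3
      exact h3
    · exfalso
      have := (h.sub _ h3).1
      nlinarith
  obtain ⟨j, hj⟩ := h.sym_init (by linarith) (by nlinarith) hs
  have hj2 : 2 ≤ j := by
    by_contra hcon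
    have : j = 0 ∨ j = 1 := by omega
    rcases this with rfl | rfl
    · rw [pow_zero, one_mul] at hj
      nlinarith
    · rw [pow_one] at hj
      nlinarith
  refine ⟨j, hj2, ?_⟩
  rw [h.sum_eq j (by omega)]
  linarith

/-- Scaling down. -/
theorem scale_mem (hq3 : q < 1 / 3) {α : ℝ} (hα : α ∈ centerOfDistances A) :
    q ^ 2 * α ∈ centerOfDistances A := by
  have hb := h.b0
  have hq0 := h.q0
  have ha0 := h.a0
  have ha1 := h.a1
  have hqa := h.qa
  have hqalt := h.qalt
  have haeq := h.aeq
  have hle := h.le_half hα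
  rw [mem_cod] at hα ⊢
  refine ⟨mul_nonneg hb.le hα.1, ?_⟩
  intro x hx
  rcases h.down x hx with h1 | h1 | h1 | h1 | h1
  · -- middle
    have ha3 : a < 1 / 2 := by nlinarith [h.ha]
    rcases le_or_gt (x + q ^ 2 * α) q with h2 | h2
    · left
      exact h.mid _ (by nlinarith [h1.1, mul_nonneg hb.le hα.1]) h2
    · right
      apply h.mid
      · nlinarith [h1.2]
      · nlinarith [h1.2, mul_nonneg hb.le hα.1]
  · rcases hα.2 _ h1 with h2 | h2
    · left
      have := h.up1 _ h2
      rwa [mul_add, mul_div_cancel₀ _ hb.ne'] at this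
    · right
      have := h.up1 _ h2
      rwa [mul_sub, mul_div_cancel₀ _ hb.ne'] at this
  · rcases hα.2 _ h1 with h2 | h2
    · left
      have := h.up2 _ h2
      rw [mul_add, mul_div_cancel₀ _ hb.ne'] at this
      have e : q ^ 2 + (x - q ^ 2 + q ^ 2 * α) = x + q ^ 2 * α := by ring
      rwa [e] at this
    · right
      have := h.up2 _ h2
      rw [mul_sub, mul_div_cancel₀ _ hb.ne'] at this
      have e : q ^ 2 + (x - q ^ 2 - q ^ 2 * α) = x - q ^ 2 * α := by ring
      rwa [e] at this
  · rcases hα.2 _ h1 with h2 | h2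
    · left
      have := h.up3 _ h2
      rw [mul_add, mul_div_cancel₀ _ hb.ne'] at this
      have e : q + (x - q + q ^ 2 * α) = x + q ^ 2 * α := by ring
      rwa [e] at this
    · right
      have := h.up3 _ h2
      rw [mul_sub, mul_div_cancel₀ _ hb.ne'] at this
      have e : q + (x - q - q ^ 2 * α) = x - q ^ 2 * α := by ring
      rwa [e] at this
  · rcases hα.2 _ h1 with h2 | h2
    · left
      have := h.up4 _ h2
      rw [mul_add, mul_div_cancel₀ _ hb.ne'] at this
      have e : q + q ^ 2 + (x - q - q ^ 2 + q ^ 2 * α) = x + q ^ 2 * α := by ring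
      rwa [e] at this
    · right
      have := h.up4 _ h2
      rw [mul_sub, mul_div_cancel₀ _ hb.ne'] at this
      have e : q + q ^ 2 + (x - q - q ^ 2 - q ^ 2 * α) = x - q ^ 2 * α := by ring
      rwa [e] at this

/-- Converse: the listed distances belong to the center. -/
theorem mem_of_cond (hq3 : q < 1 / 3) {β : ℝ}
    (h1 : q * a ≤ β ∨ ∃ n : ℕ, 2 ≤ n ∧ β = ∑ i ∈ Finset.Icc 2 n, q ^ i)
    (h2 : 2 * β - (q - q * a) ≤ 0 ∨
      (2 * β - (q - q * a) ≤ q ^ 2 * a ∧ 2 * β - (q - q * a) ∈ D1 a A)) :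
    β ∈ centerOfDistances A := by
  have hb := h.b0
  have hq0 := h.q0
  have ha0 := h.a0
  have ha1 := h.a1
  have hqa := h.qa
  have hqalt := h.qalt
  have haeq := h.aeq
  have ha3 : a < 1 / 2 := by nlinarith [h.ha]
  have hβb : q ^ 2 ≤ β := by
    rcases h1 with h1 | ⟨n, hn, h1⟩
    · nlinarith
    · rw [h1, h.sum_eq n (by omega)]
      have : q ^ n ≤ q ^ 2 := pow_le_pow_of_le_one hq0.le (by linarith) hn
      nlinarith
  have hβJ : β ≤ q - q * a := by
    rcases h2 with h2 | ⟨h2, -⟩
    · nlinarith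
    · nlinarith
  rw [mem_cod]
  refine ⟨by nlinarith, ?_⟩
  -- first treat x ≤ q
  have main : ∀ x ∈ A, x ≤ q → x + β ∈ A ∨ x - β ∈ A := by
    intro x hx hxq
    have hx0 := (h.sub x hx).1
    rcases lt_or_ge x (q ^ 2) with h3 | h3
    · -- first piece
      have hx1 := h.le_of_mem_small x hx h3
      left
      rcases h1 with h1 | ⟨n, hn, h1⟩
      · exact h.mid _ (by linarith) (by nlinarith)
      · rw [h.sum_eq n (by omega)] at h1
        rcases le_or_gt x (q ^ n * a) with h4 | h4
        · have h5 := h.sym_pow n x hx h4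
          have hle : q ^ n * a - x ≤ q * a := by
            have : q ^ n ≤ q ^ 1 := pow_le_pow_of_le_one hq0.le (by linarith) (by omega)
            rw [pow_one] at this
            nlinarith
          have e : x + β = q * a - (q ^ n * a - x) := by rw [h1]; ring
          rw [e, h.symleft _ (by linarith) hle]
          exact h5
        · exact h.mid _ (by linarith) (by nlinarith)
    · rcases lt_or_ge x (q * a) with h4 | h4
      · left
        exact h.mid _ (by nlinarith) (by linarith)
      · -- middle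
        rcases le_or_gt (x + β) q with h5 | h5
        · left; exact h.mid _ (by nlinarith) h5
        · rcases le_or_gt (q * a) (x - β) with h6 | h6
          · right; exact h.mid _ h6 (by nlinarith)
          · rcases h2 with h2 | ⟨h2, -, -, h7⟩
            · linarith
            · rcases h7 (x + β - q) (by linarith) (by linarith) with h8 | h8
              · left
                rw [← h.right _ (by linarith) (by nlinarith)] at h8
                simpa using h8
              · right
                rw [← h.right _ (by linarith) (by nlinarith)] at h8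
                rw [← h.symiff]
                have e : a - (x - β) = q + (2 * β - (q - q * a) - (x + β - q)) := by linarith
                rwa [e]
  intro x hx
  rcases le_or_gt x q with h3 | h3
  · exact main x hx h3
  · have h4 := h.sym x hx
    have h5 : a - x ≤ q := by linarith
    rcases main _ h4 h5 with h6 | h6
    · right
      rw [← h.symiff]
      have e : a - (x - β) = a - x + β := by ring
      rwa [e]
    · left
      rw [← h.symiff]
      have e : a - (x + β) = a - x - β := by ring
      rwa [e]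

theorem D1_closed : IsClosed (D1 a A) := by
  have : D1 a A = Set.Icc 0 a ∩ ⋂ (s : ℝ) (_ : 0 ≤ s ∧ s ∉ A), ({v | v ≤ s} ∪ {v | v - s ∈ A}) := by
    ext v
    simp only [D1, Set.mem_ofPred_eq, Set.mem_inter_iff, Set.mem_Icc, Set.mem_iInter, Set.mem_union]
    constructor
    · rintro ⟨h1, h2, h3⟩
      refine ⟨⟨h1, h2⟩, ?_⟩
      rintro s ⟨hs1, hs2⟩
      rcases le_or_gt v s with h4 | h4
      · exact Or.inl h4
      · right
        rcases h3 s hs1 h4.le with h5 | h5
        · exact absurd h5 hs2
        · exact h5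
    · rintro ⟨⟨h1, h2⟩, h3⟩
      refine ⟨h1, h2, ?_⟩
      intro s hs1 hs2
      by_cases hsA : s ∈ A
      · exact Or.inl hsA
      · right
        rcases h3 s ⟨hs1, hsA⟩ with h4 | h4
        · have : v - s = 0 := by linarith
          rw [this]; exact h.zero
        · exact h4
  rw [this]
  apply isClosed_Icc.inter
  apply isClosed_iInter
  intro s
  apply isClosed_iInter
  intro _
  apply IsClosed.union
  · exact isClosed_le continuous_id continuous_const
  · exact h.closed.preimage (continuous_id.sub continuous_const)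

theorem D1_compact : IsCompact (D1 a A) := by
  apply isCompact_Icc.of_isClosed_subset h.D1_closed (s := Set.Icc 0 a)
  intro v hv
  exact ⟨hv.1, hv.2.1⟩

theorem D1_zero : (0 : ℝ) ∈ D1 a A := by
  refine ⟨le_rfl, h.a0.le, ?_⟩
  intro s hs1 hs2
  left
  have : s = 0 := le_antisymm hs2 hs1
  rw [this]; exact h.zero

theorem D1_up {w : ℝ} (hw : w ∈ D1 a A) : q ^ 2 * w ∈ D1 a A := by
  have hb := h.b0
  have hb1 : q ^ 2 < 1 := by nlinarith [h.q0, h.q2]
  have ha0 := h.a0
  have ha1 := h.a1
  obtain ⟨h0, h1, h2⟩ := hw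
  refine ⟨mul_nonneg hb.le h0, by nlinarith, ?_⟩
  intro s hs1 hs2
  have hsb : s < q ^ 2 := by nlinarith
  rcases h2 (s / q ^ 2) (by positivity) (by rw [div_le_iff₀ hb]; linarith) with h3 | h3
  · left; rwa [h.small s hsb]
  · right
    have := h.up1 _ h3
    rwa [mul_sub, mul_div_cancel₀ _ hb.ne'] at this

/-- Elements of `D1` up to `q a` are scaled copies. -/
theorem D1_low {v : ℝ} (hv : v ∈ D1 a A) (hv2 : v ≤ q * a) : v ≤ q ^ 2 * a := by
  have hb := h.b0
  have hq0 := h.q0
  have hq2 := h.q2
  have ha0 := h.a0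
  have ha1 := h.a1
  have hqa := h.qa
  have hqalt := h.qalt
  have haeq := h.aeq
  have hba : q ^ 2 * a < q ^ 2 := by nlinarith
  obtain ⟨h0, h1, h2⟩ := hv
  by_contra hcon
  push Not at hcon
  rcases lt_or_ge v (q ^ 2) with h3 | h3
  · obtain ⟨y, hy0, hy1, hy2, hy3⟩ := h.acc (v - q ^ 2 * a) (by linarith)
    rcases h2 (v - y) (by nlinarith) (by linarith) with h4 | h4
    · exact h.gap1 _ (by linarith) (by linarith) h4
    · have e : v - (v - y) = y := by ring
      rw [e] at h4
      exact hy3 h4
  · have hI : ∀ x, v - q ^ 2 < x → x < v - q ^ 2 * a → x ∈ A := by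
      intro x hx1 hx2
      rcases h2 (v - x) (by nlinarith) (by linarith) with h4 | h4
      · exact absurd h4 (h.gap1 _ (by linarith) (by linarith))
      · have e : v - (v - x) = x := by ring
        rwa [e] at h4
    have := h.long _ _ (by linarith) (h.close_open _ _ (by linarith) hI)
      (by nlinarith [mul_pos hb (sub_pos.mpr ha1)])
    nlinarith [this.1]

/-- The self-similar structure of `D1`. -/
theorem D1_eq (hq3 : q < 1 / 3) : D1 a A =
    (fun x => q ^ 2 * x) '' (D1 a A) ∪ (fun x => 2 * (q * a) - q ^ 2 * x) '' (D1 a A) ∪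
      Set.Icc (2 * (q * a)) q ∪ (fun x => q + q ^ 2 * x) '' (D1 a A) := by
  have hb := h.b0
  have hq0 := h.q0
  have ha0 := h.a0
  have ha1 := h.a1
  have hqa := h.qa
  have hqalt := h.qalt
  have haeq := h.aeq
  have ha3 : a < 1 / 2 := by nlinarith [h.ha]
  have hba : q ^ 2 * a < q ^ 2 := by nlinarith
  -- characterisation on (q a, 2 q a)
  ext v
  simp only [Set.mem_union, Set.mem_image, Set.mem_Icc]
  constructor
  · intro hv
    have hv' := hv
    obtain ⟨h0, h1, h2⟩ := hv'
    rcases le_or_gt v (q * a) with h3 | h3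
    · left; left; left
      have h4 := h.D1_low hv h3
      exact ⟨v / q ^ 2, h.D1_scale hv h4, by rw [mul_div_cancel₀ _ hb.ne']⟩
    rcases lt_or_ge v (2 * (q * a)) with h4 | h4
    · left; left; right
      have hv1 : 2 * (q * a) - v ∈ D1 a A := by
        refine ⟨by linarith, by linarith, ?_⟩
        intro s hs1 hs2
        have h5 := h2 (q * a - s) (by linarith) (by linarith)
        have e : v - (q * a - s) = q * a - (2 * (q * a) - v - s) := by ring
        rw [e, h.symleft s hs1 (by linarith), h.symleft _ (by linarith) (by linarith)] at h5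
        exact h5
      have hv2 := h.D1_low hv1 (by linarith)
      refine ⟨(2 * (q * a) - v) / q ^ 2, h.D1_scale hv1 hv2, ?_⟩
      rw [mul_div_cancel₀ _ hb.ne']; ring
    rcases le_or_gt v q with h5 | h5
    · left; right; exact ⟨h4, h5⟩
    · right
      have hv1 : v - q ∈ D1 a A := by
        refine ⟨by linarith, by linarith, ?_⟩
        intro s hs1 hs2
        have h6 := h2 (q + s) (by linarith) (by linarith)
        have e : v - (q + s) = v - q - s := by ring
        rw [e, h.right s hs1 (by linarith)] at h6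
        exact h6
      have hv2 := h.D1_low hv1 (by linarith)
      refine ⟨(v - q) / q ^ 2, h.D1_scale hv1 hv2, ?_⟩
      rw [mul_div_cancel₀ _ hb.ne']; ring
  · rintro (((⟨w, hw, rfl⟩ | ⟨w, hw, rfl⟩) | ⟨h1, h2⟩) | ⟨w, hw, rfl⟩)
    · exact h.D1_up hw
    · have hu := h.D1_up hw
      obtain ⟨h0, h1, h2⟩ := hu
      have h3 : q ^ 2 * w ≤ q ^ 2 * a := mul_le_mul_of_nonneg_left hw.2.1 hb.le
      refine ⟨by nlinarith, by nlinarith, ?_⟩
      intro s hs1 hs2
      rcases le_or_gt (q * a) s with h4 | h4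
      · left; exact h.mid _ h4 (by nlinarith)
      · rcases le_or_gt (q * a) (2 * (q * a) - q ^ 2 * w - s) with h5 | h5
        · right; exact h.mid _ h5 (by nlinarith)
        · have h6 := h2 (q * a - s) (by linarith) (by linarith)
          rw [h.symleft s hs1 h4.le] at h6
          rcases h6 with h6 | h6
          · exact Or.inl h6
          · right
            rw [← h.symleft _ (by linarith) h5.le]
            have e : q * a - (2 * (q * a) - q ^ 2 * w - s) = q ^ 2 * w - (q * a - s) := by ring
            rwa [e]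
    · refine ⟨by nlinarith, by nlinarith, ?_⟩
      intro s hs1 hs2
      rcases le_or_gt (q * a) s with h4 | h4
      · left; exact h.mid _ h4 (by linarith)
      · right; exact h.mid _ (by linarith) (by linarith)
    · have hu := h.D1_up hw
      obtain ⟨h0, h1, h2⟩ := hu
      have h3 : q ^ 2 * w ≤ q ^ 2 * a := mul_le_mul_of_nonneg_left hw.2.1 hb.le
      refine ⟨by nlinarith, by nlinarith, ?_⟩
      intro s hs1 hs2
      rcases le_or_gt q s with h4 | h4
      · have h5 := h2 (s - q) (by linarith) (by linarith)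
        rcases h5 with h5 | h5
        · left
          rw [← h.right _ (by linarith) (by nlinarith)] at h5
          simpa using h5
        · right
          have e : q + q ^ 2 * w - s = q ^ 2 * w - (s - q) := by ring
          rwa [e]
      · rcases le_or_gt (q * a) s with h5 | h5
        · left; exact h.mid _ h5 h4.le
        · rcases le_or_gt s (q ^ 2 * w) with h6 | h6
          · rcases h2 s hs1 h6 with h7 | h7
            · exact Or.inl h7
            · right
              rw [← h.right _ (by linarith) (by nlinarith)] at h7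
              have e : q + q ^ 2 * w - s = q + (q ^ 2 * w - s) := by ring
              rwa [e]
          · right
            apply h.mid <;> nlinarith

end Sys

/-- The defining property of the auxiliary compact set. -/
def IsAux (q a : ℝ) (D : Set ℝ) : Prop :=
  D.Nonempty ∧ IsCompact D ∧ D = (fun x => q ^ 2 * x) '' D ∪ (fun x => 2 * (q * a) - q ^ 2 * x) '' D ∪
      Set.Icc (2 * (q * a)) q ∪ (fun x => q + q ^ 2 * x) '' D

theorem IsAux.subset {q a : ℝ} (hq0 : 0 < q) (hq1 : q < 1) {D D' : Set ℝ} (h : IsAux q a D)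
    (h' : IsAux q a D') : D ⊆ D' := by
  obtain ⟨hne, hc, he⟩ := h
  obtain ⟨hne', hc', he'⟩ := h'
  have hb : 0 < q ^ 2 := by positivity
  have hb1 : q ^ 2 < 1 := by nlinarith
  obtain ⟨x0, hx0, hmax⟩ := hc.exists_isMaxOn hne
    (Metric.continuous_infDist_pt D').continuousOn
  have hbound : ∀ x ∈ D, Metric.infDist x D' ≤ Metric.infDist x0 D' := fun x hx => hmax hx
  have hkey : Metric.infDist x0 D' ≤ q ^ 2 * Metric.infDist x0 D' := by
    have gen : ∀ (f : ℝ → ℝ), (∀ x y, dist (f x) (f y) = q ^ 2 * dist x y) →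
        (∀ y ∈ D', f y ∈ D') → ∀ x ∈ D, Metric.infDist (f x) D' ≤ q ^ 2 * Metric.infDist x0 D' := by
      intro f hf hfm x hx
      obtain ⟨y, hy, hxy⟩ := hc'.exists_infDist_eq_dist hne' x
      calc Metric.infDist (f x) D' ≤ dist (f x) (f y) := Metric.infDist_le_dist_of_mem (hfm y hy)
        _ = q ^ 2 * dist x y := hf x y
        _ = q ^ 2 * Metric.infDist x D' := by rw [hxy]
        _ ≤ _ := mul_le_mul_of_nonneg_left (hbound x hx) hb.le
    have hx0' := hx0
    rw [he] at hx0'
    simp only [Set.mem_union, Set.mem_image] at hx0'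
    rcases hx0' with ((⟨w, hw, hwe⟩ | ⟨w, hw, hwe⟩) | hm) | ⟨w, hw, hwe⟩
    · conv_lhs => rw [← hwe]
      apply gen (fun x => q ^ 2 * x) _ _ w hw
      · intro x y
        rw [Real.dist_eq, Real.dist_eq, ← mul_sub, abs_mul, abs_of_pos hb]
      · intro y hy
        rw [he']
        exact Or.inl (Or.inl (Or.inl ⟨y, hy, rfl⟩))
    · conv_lhs => rw [← hwe]
      apply gen (fun x => 2 * (q * a) - q ^ 2 * x) _ _ w hw
      · intro x y
        rw [Real.dist_eq, Real.dist_eq]
        have : 2 * (q * a) - q ^ 2 * x - (2 * (q * a) - q ^ 2 * y) = - (q ^ 2 * (x - y)) := by ring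
        rw [this, abs_neg, abs_mul, abs_of_pos hb]
      · intro y hy
        rw [he']
        exact Or.inl (Or.inl (Or.inr ⟨y, hy, rfl⟩))
    · have : x0 ∈ D' := by
        rw [he']
        exact Or.inl (Or.inr hm)
      rw [Metric.infDist_zero_of_mem this]
      simp
    · conv_lhs => rw [← hwe]
      apply gen (fun x => q + q ^ 2 * x) _ _ w hw
      · intro x y
        rw [Real.dist_eq, Real.dist_eq]
        have : q + q ^ 2 * x - (q + q ^ 2 * y) = q ^ 2 * (x - y) := by ring
        rw [this, abs_mul, abs_of_pos hb]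
      · intro y hy
        rw [he']
        exact Or.inr ⟨y, hy, rfl⟩
  have h0 : Metric.infDist x0 D' = 0 := by
    have := Metric.infDist_nonneg (x := x0) (s := D')
    nlinarith
  intro x hx
  have h1 : Metric.infDist x D' = 0 :=
    le_antisymm (by rw [← h0]; exact hbound x hx) Metric.infDist_nonneg
  have h2 := (hc'.isClosed.mem_iff_infDist_zero hne').2 h1
  exact h2

namespace Sys

variable {q a : ℝ} {A : Set ℝ} (h : Sys q a A)
include h

theorem isAux_D1 (hq3 : q < 1 / 3) : IsAux q a (D1 a A) :=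
  ⟨⟨0, h.D1_zero⟩, h.D1_compact, h.D1_eq hq3⟩

theorem aux_unique (hq3 : q < 1 / 3) {D : Set ℝ} (hD : IsAux q a D) : D = D1 a A :=
  Set.Subset.antisymm (IsAux.subset h.q0 (by linarith) hD (h.isAux_D1 hq3))
    (IsAux.subset h.q0 (by linarith) (h.isAux_D1 hq3) hD)

/-- The center of distances for `q < 1/3`. -/
theorem center_eq (hq3 : q < 1 / 3) : centerOfDistances A = {0} ∪
    {α | ∃ (k : ℕ) (β : ℝ), α = q ^ (2 * k) * β ∧
      (q * a ≤ β ∨ ∃ n : ℕ, 2 ≤ n ∧ β = ∑ i ∈ Finset.Icc 2 n, q ^ i) ∧
      (2 * β ≤ q - q * a ∨ ∃ d ∈ D1 a A, 2 * β = q - q * a + q ^ 2 * d)} := by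
  have hb := h.b0
  have hq0 := h.q0
  have ha0 := h.a0
  ext α
  simp only [Set.mem_union, Set.mem_singleton_iff, Set.mem_ofPred_eq]
  constructor
  · intro hα
    rcases eq_or_lt_of_le ((mem_cod A α).1 hα).1 with h0 | h0
    · exact Or.inl h0.symm
    right
    obtain ⟨k, β, hk, h1, h2, hW⟩ := h.exists_scale hα h0
    obtain ⟨h3, h4⟩ := h.step2 hW h1 h2
    obtain ⟨h5, h6⟩ := h.step3 hW h3 h4
    refine ⟨k, β, by rw [hk, pow_mul], ?_, ?_⟩
    · rcases le_or_gt (q * a) β with h7 | h7
      · exact Or.inl h7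
      · exact Or.inr (h.step4 hW h3 h7)
    · rcases h6 with h6 | ⟨h6, h7⟩
      · left; linarith
      · right
        refine ⟨_, h.D1_scale h7 h6, ?_⟩
        rw [mul_div_cancel₀ _ hb.ne']; ring
  · rintro (rfl | ⟨k, β, rfl, h1, h2⟩)
    · rw [mem_cod]
      refine ⟨le_rfl, fun x hx => ?_⟩
      left; simpa using hx
    · have hβ : β ∈ centerOfDistances A := by
        apply h.mem_of_cond hq3 h1
        rcases h2 with h2 | ⟨d, hd, h2⟩
        · left; linarith
        · right
          have e : 2 * β - (q - q * a) = q ^ 2 * d := by rw [h2]; ring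
          rw [e]
          exact ⟨mul_le_mul_of_nonneg_left hd.2.1 hb.le, h.D1_up hd⟩
      rw [pow_mul]
      induction k with
      | zero => simpa using hβ
      | succ k ih =>
        have := h.scale_mem hq3 ih
        have e : q ^ 2 * ((q ^ 2) ^ k * β) = (q ^ 2) ^ (k + 1) * β := by ring
        rwa [e] at this

end Sys

end Pool.Agent.Lib.MP_c27d8d_an
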